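import Pool.Agent.LibX1.Strings

/-!
Gradings by pure subspaces, and the string lemma for eigenvalues.
-/

namespace Pool.Agent.LibX1

open Polynomial Pool.Agent.WM85

section proj

variable {K D : Type*} [Field K] [AddCommGroup D] [Module K D]

theorem exists_proj {W : ℤ → Submodule K D} (hW : DirectSum.IsInternal W) :
    ∃ p : ℤ → D →ₗ[K] D, Proj W p := by
  classical
  let e : (DirectSum ℤ fun r => W r) ≃ₗ[K] D :=
    LinearEquiv.ofBijective (DirectSum.coeLinearMap W) hW
  have he : ∀ (r : ℤ) (x : W r), e.symm (x : D) = DirectSum.lof K ℤ (fun r => W r) r x := by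
    intro r x
    rw [LinearEquiv.symm_apply_eq]
    exact (DirectSum.coeLinearMap_lof W r x).symm
  refine ⟨fun r => (W r).subtype ∘ₗ DirectSum.component K ℤ (fun r => W r) r ∘ₗ e.symm.toLinearMap,
    ?_, ?_, ?_, ?_⟩
  · intro r x
    exact (DirectSum.component K ℤ (fun r => W r) r (e.symm x)).2
  · intro r x hx
    have h1 := he r ⟨x, hx⟩
    simp only [LinearMap.comp_apply, LinearEquiv.coe_coe] at h1 ⊢
    rw [h1, DirectSum.component.lof_self]
    rfl
  · intro r t hrt x hx
    have h1 := he t ⟨x, hx⟩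
    simp only [LinearMap.comp_apply, LinearEquiv.coe_coe] at h1 ⊢
    rw [h1, DirectSum.component.of, dif_neg (Ne.symm hrt)]
    rfl
  · intro x
    refine ⟨DFinsupp.support (e.symm x), ?_⟩
    have h1 : e (e.symm x) = x := e.apply_symm_apply x
    conv_lhs => rw [← h1]
    have h2 : e (e.symm x) = DirectSum.coeLinearMap W (e.symm x) := rfl
    rw [h2, DirectSum.coeLinearMap_eq_dfinsuppSum, DFinsupp.sum]
    rfl

end proj

section weil

variable {q : ℕ}

theorem Weil.coprime (K : Type*) [Field K] [CharZero K] (hq : 1 < q) {w w' : ℤ} (h : w ≠ w')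
    {R R' : ℤ[X]} (hR : Weil q w R) (hR' : Weil q w' R') :
    IsCoprime (R.map (algebraMap ℤ K)) (R'.map (algebraMap ℤ K)) := by
  have h1 : IsCoprime (R.map (algebraMap ℤ ℚ)) (R'.map (algebraMap ℤ ℚ)) := by
    rw [Polynomial.isCoprime_iff_aeval_ne_zero_of_isAlgClosed ℚ ℂ]
    intro a
    by_contra hcon
    push Not at hcon
    obtain ⟨h2, h3⟩ := hcon
    rw [aeval_map_algebraMap] at h2 h3
    have h4 := hR.2 a h2
    have h5 := hR'.2 a h3
    rw [h4] at h5
    exact h (zpow_right_injective₀ (by positivity) (by exact_mod_cast hq.ne') h5)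
  have h2 := h1.map (Polynomial.mapRingHom (algebraMap ℚ K))
  simp only [coe_mapRingHom, Polynomial.map_map] at h2
  have h3 : (algebraMap ℚ K).comp (algebraMap ℤ ℚ) = algebraMap ℤ K := RingHom.ext_int _ _
  rwa [h3] at h2

end weil

section stable

variable {K D : Type*} [Field K] [CharZero K] [AddCommGroup D] [Module K D]

omit [CharZero K] in
theorem aeval_mem {A : Type*} [CommRing A] [Algebra A K] [Module A D] [IsScalarTower A K D]
    (F : Module.End K D) {S : Submodule K D} (hS : S ≤ S.comap F)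
    (G : A[X]) {x : D} (hx : x ∈ S) : (aeval F G) x ∈ S := by
  induction G using Polynomial.induction_on' with
  | add G G' h h' => rw [map_add, LinearMap.add_apply]; exact S.add_mem h h'
  | monomial n a =>
    have h1 : (F ^ n) x ∈ S := by
      induction n with
      | zero => simpa using hx
      | succ n ih => rw [pow_succ', Module.End.mul_apply]; exact hS ih
    rw [aeval_monomial, Module.End.mul_apply, Module.algebraMap_end_apply, ← algebraMap_smul K a]
    exact S.smul_mem _ h1

variable {q : ℕ}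

/-- A subspace stable under `F` is graded if the weights of the pieces are distinct. -/
theorem stable_proj (hq : 1 < q) {m : ℤ} {F : Module.End K D} {W : ℤ → Submodule K D}
    {p : ℤ → D →ₗ[K] D} (hp : Proj W p) (hW : ∀ r, PureOn q (m + r) F (W r))
    {S : Submodule K D} (hS : S ≤ S.comap F) (r : ℤ) {x : D} (hx : x ∈ S) : p r x ∈ S := by
  classical
  choose R hR1 hR2 using hW
  obtain ⟨t, ht⟩ := hp.sum x
  by_cases hr : r ∈ t
  · let P : ℤ → K[X] := fun i => (R i).map (algebraMap ℤ K)
    have hP : ∀ i, ∀ y ∈ W i, (aeval F (P i)) y = 0 := by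
      intro i y hy
      have := hR2 i y hy
      rwa [aeval_map_algebraMap]
    have hcop : IsCoprime (∏ i ∈ t.erase r, P i) (P r) := by
      apply IsCoprime.prod_left
      intro i hi
      exact Weil.coprime K hq (by have := Finset.ne_of_mem_erase hi; omega) (hR1 i) (hR1 r)
    obtain ⟨a, b, hab⟩ := hcop
    have h1 : (aeval F (a * ∏ i ∈ t.erase r, P i)) x = p r x := by
      conv_lhs => rw [ht]
      rw [map_sum, Finset.sum_eq_single r]
      · have h2 : (aeval F (a * ∏ i ∈ t.erase r, P i + b * P r)) (p r x) = p r x := by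
          rw [hab, map_one, Module.End.one_apply]
        rw [map_add, LinearMap.add_apply, map_mul (aeval F) b, Module.End.mul_apply,
          hP r _ (hp.mem r x), map_zero, add_zero] at h2
        exact h2
      · intro i hi hir
        obtain ⟨c, hc⟩ : P i ∣ a * ∏ i ∈ t.erase r, P i :=
          Dvd.dvd.mul_left (Finset.dvd_prod_of_mem _ (Finset.mem_erase.mpr ⟨hir, hi⟩)) _
        rw [hc, mul_comm, map_mul, Module.End.mul_apply, hP i _ (hp.mem i x), map_zero]
      · intro h; exact absurd hr h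
    rw [← h1]
    exact aeval_mem F hS _ hx
  · have h2 : p r x = 0 := by
      conv_lhs => rw [ht]
      rw [map_sum]
      apply Finset.sum_eq_zero
      intro i hi
      exact hp.ne _ _ (by rintro rfl; exact hr hi) _ (hp.mem i x)
    rw [h2]
    exact S.zero_mem

/-- The string lemma for eigenvalues: outside of `|r - s| ≤ δ` the weight `m + r` does not occur on
`gr_s`. -/
theorem strings_weights [FiniteDimensional K D] (hq : 1 < q) {m : ℤ} {F N : Module.End K D}
    (hF : Function.Injective F) (hFN : ∀ x, N (F x) = (q : K) • F (N x))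
    {M : ℤ → Submodule K D} (hM : IsMono N M) {W : ℤ → Submodule K D}
    (hI : DirectSum.IsInternal W) (hN : ∀ r, ∀ x ∈ W r, N x ∈ W (r - 2))
    (hW : ∀ r, PureOn q (m + r) F (W r)) (s₀ : ℕ)
    (hinj : ∀ s : ℕ, s₀ ≤ s → ∀ x ∈ W s, (N ^ s) x = 0 → x = 0)
    (hsurj : ∀ s : ℕ, s₀ ≤ s → ∀ y ∈ W (-s), ∃ x ∈ W s, (N ^ s) x = y)
    (s δ : ℤ) (hδ : 0 ≤ δ) (hs : (s₀ : ℤ) ≤ δ + 1 + |s|) :
    WeightsGr q (m + s - δ) (m + s + δ) F M s := by
  obtain ⟨p, hp⟩ := exists_proj hI
  have hq0 : (q : K) ≠ 0 := by exact_mod_cast (by omega : q ≠ 0)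
  have hst := hM.stable hq0 hF (LinearMap.injective_iff_surjective.mp hF) hFN
  have hMp : ∀ s r, ∀ x ∈ M s, p r x ∈ M s := fun s r x hx => stable_proj hq hp hW (hst s) r hx
  choose R hR1 hR2 using hW
  refine ⟨fun w => R (w - m), fun w => ?_, fun x hx => ?_⟩
  · have := hR1 (w - m)
    rwa [add_sub_cancel] at this
  · obtain ⟨t, ht⟩ := hp.sum x
    rw [ht, map_sum]
    apply Submodule.sum_mem
    intro r _
    by_cases hr : m + r ∈ Finset.Icc (m + s - δ) (m + s + δ)
    · obtain ⟨c, hc⟩ := Finset.dvd_prod_of_mem (fun w => R (w - m)) hr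
      rw [hc, mul_comm, map_mul, Module.End.mul_apply]
      have h1 := hR2 r _ (hp.mem r x)
      rw [add_sub_cancel_left, h1, map_zero]
      exact Submodule.zero_mem _
    · apply aeval_mem F (hst (s - 1))
      have h1 : δ < |r - s| := by
        rw [Finset.mem_Icc] at hr
        rcases abs_cases (r - s) with h | h <;> omega
      exact strings_graded hM hN hp hMp s₀ hinj hsurj s r (by omega)
        (by rintro rfl; simp at h1; omega) ⟨hMp _ _ _ hx, hp.mem _ _⟩

omit [CharZero K] in
theorem WeightsGr.pure {w : ℤ} {F : Module.End K D} {M : ℤ → Submodule K D} {s : ℤ}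
    (h : WeightsGr q w w F M s) : PureGr q w F M s := by
  obtain ⟨R, hR1, hR2⟩ := h
  refine ⟨R w, hR1 w, fun x hx => ?_⟩
  have := hR2 x hx
  simpa using this

/-- The string lemma for eigenvalues: purity of `gr_s` for `|s| ≥ s₀ - 1`. -/
theorem strings_pure [FiniteDimensional K D] (hq : 1 < q) {m : ℤ} {F N : Module.End K D}
    (hF : Function.Injective F) (hFN : ∀ x, N (F x) = (q : K) • F (N x))
    {M : ℤ → Submodule K D} (hM : IsMono N M) {W : ℤ → Submodule K D}
    (hI : DirectSum.IsInternal W) (hN : ∀ r, ∀ x ∈ W r, N x ∈ W (r - 2))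
    (hW : ∀ r, PureOn q (m + r) F (W r)) (s₀ : ℕ)
    (hinj : ∀ s : ℕ, s₀ ≤ s → ∀ x ∈ W s, (N ^ s) x = 0 → x = 0)
    (hsurj : ∀ s : ℕ, s₀ ≤ s → ∀ y ∈ W (-s), ∃ x ∈ W s, (N ^ s) x = y)
    (s : ℤ) (hs : (s₀ : ℤ) - 1 ≤ |s|) : PureGr q (m + s) F M s := by
  apply WeightsGr.pure
  have := strings_weights hq hF hFN hM hI hN hW s₀ hinj hsurj s 0 le_rfl (by omega)
  rwa [sub_zero, add_zero] at this

end stable

end Pool.Agent.LibX1
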