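import Pool.Agent.LibX1.Cells

/-!
The normal form of the injectivity of `N ^ s` from weight `m + s` to weight `m - s`: it suffices to
treat the cocycles `rho y` in place `s`, `y` in `H^(m-s) (Y^(s))`, `gamma (rho y) = 0`.
-/

namespace Pool.Agent.LibX1

open Module

namespace Strata

variable {q : ℕ} {K H : Type} [Field K] [AddCommGroup H] [Module K H] (Y : Strata q K H)

/-- The element `x` in place `i`. -/
abbrev sg (K : Type) {H : Type} [Field K] [AddCommGroup H] [Module K H] (i : ℕ) (x : H) : ℕ → H :=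
  LinearMap.single K (fun _ : ℕ => H) i x

theorem sg_same (i : ℕ) (x : H) : sg K i x i = x := by
  rw [sg, LinearMap.single_apply, Pi.single_eq_same]

theorem sg_ne {i l : ℕ} (h : l ≠ i) (x : H) : sg K i x l = 0 := by
  rw [sg, LinearMap.single_apply, Pi.single_eq_of_ne h]

theorem d_sg_zero (x : H) : Y.d (sg K 0 x) = sg K 0 (Y.rho x) := by
  funext l
  rw [d_apply, sg_ne (Nat.succ_ne_zero l), map_zero, add_zero]
  by_cases hl : l = 0
  · subst hl
    rw [sg_same, sg_same]
  · rw [sg_ne hl, sg_ne hl, map_zero]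

theorem d_sg_succ (i : ℕ) (x : H) :
    Y.d (sg K (i + 1) x) = sg K (i + 1) (Y.rho x) + sg K i (Y.gamma x) := by
  funext l
  rw [Pi.add_apply, d_apply]
  congr 1
  · by_cases hl : l = i + 1
    · subst hl
      rw [sg_same, sg_same]
    · rw [sg_ne hl, sg_ne hl, map_zero]
  · by_cases hl : l = i
    · subst hl
      rw [sg_same, sg_same]
    · rw [sg_ne hl, sg_ne (by omega), map_zero]

theorem shift_pow_apply (s : ℕ) (f : ℕ → H) (i : ℕ) : ((shift K H) ^ s) f i = f (i + s) := by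
  induction s generalizing i with
  | zero => rfl
  | succ s ih =>
    rw [pow_succ', Module.End.mul_apply, shift_apply, ih]
    congr 1
    omega

theorem d_shift_pow (s : ℕ) (f : ℕ → H) : Y.d (((shift K H) ^ s) f) = ((shift K H) ^ s) (Y.d f) := by
  induction s with
  | zero => rfl
  | succ s ih =>
    rw [pow_succ', Module.End.mul_apply, d_shift, ih, Module.End.mul_apply]

theorem shift_pow_Z (s : ℕ) {m : ℕ} {f : ℕ → H} (hf : f ∈ Y.Z m) : ((shift K H) ^ s) f ∈ Y.Z m := by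
  induction s with
  | zero => simpa using hf
  | succ s ih =>
    rw [pow_succ', Module.End.mul_apply]
    exact Y.shift_Z ih

variable {Y} in
theorem Coh.N_pow_cl {m : ℕ} {V : Type} [AddCommGroup V] [Module K V] {cl : (ℕ → H) →ₗ[K] V}
    {N F : Module.End K V} (h : Y.Coh m cl N F) (s : ℕ) {z : ℕ → H} (hz : z ∈ Y.Z m) :
    (N ^ s) (cl z) = cl (((shift K H) ^ s) z) := by
  induction s with
  | zero => simp
  | succ s ih =>
    rw [pow_succ', Module.End.mul_apply, ih, h.N_cl _ (Y.shift_pow_Z s hz), pow_succ',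
      Module.End.mul_apply]

/-- An element of weight `m + r` is given in place `i` by an element of `gr (2 i - r) (m + r - 2 i)`. -/
theorem wt_apply {m : ℕ} {r : ℤ} {f : ℕ → H} (hf : f ∈ Y.wt m r) (i : ℕ) :
    f i = 0 ∨ ∃ k j, i ≤ k ∧ k + j = m ∧ (k : ℤ) + r = 2 * i ∧ f i ∈ Y.gr k j := by
  by_cases hi : ∃ k j, i ≤ k ∧ k + j = m ∧ (k : ℤ) + r = 2 * i
  · obtain ⟨k, j, h1, h2, h3⟩ := hi
    right
    refine ⟨k, j, h1, h2, h3, ?_⟩
    have h4 : Y.wt m r ≤ (Y.gr k j).comap (LinearMap.proj i) := by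
      apply Y.wt_le
      rintro i' k' j' h1' h2' h3' _ ⟨x, hx, rfl⟩
      rw [Submodule.mem_comap]
      show sg K i' x i ∈ Y.gr k j
      by_cases h : i = i'
      · subst h
        obtain rfl : k' = k := by omega
        obtain rfl : j' = j := by omega
        rw [sg_same]
        exact hx
      · rw [sg_ne h]
        exact Submodule.zero_mem _
    exact h4 hf
  · left
    have h4 : Y.wt m r ≤ LinearMap.ker (LinearMap.proj i : (ℕ → H) →ₗ[K] H) := by
      apply Y.wt_le
      rintro i' k' j' h1' h2' h3' _ ⟨x, hx, rfl⟩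
      rw [LinearMap.mem_ker]
      show sg K i' x i = 0
      rw [sg_ne]
      rintro rfl
      exact hi ⟨k', j', h1', h2', h3'⟩
    exact h4 hf

/-- The cochain `g` of weight `m - s` moved up by `s` places, without its place `0`. -/
theorem exists_up {n s : ℕ} {g : ℕ → H} (hg : g ∈ Y.wt n (-s + 1)) :
    ∃ g' ∈ Y.wt n (s + 1), g = ((shift K H) ^ s) g' + sg K 0 (g 0) := by
  have h1 : Y.wt n (-s + 1) ≤ ((Y.wt n (s + 1)).map ((shift K H) ^ s)) ⊔
      LinearMap.range (LinearMap.single K (fun _ : ℕ => H) 0) := by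
    apply Y.wt_le
    rintro i k j h1 h2 h3 _ ⟨x, hx, rfl⟩
    rcases i with _ | i
    · exact Submodule.mem_sup_right ⟨x, rfl⟩
    · apply Submodule.mem_sup_left
      refine ⟨sg K (i + 1 + s) x, Y.cell_le_wt (i := i + 1 + s) (k := k) (j := j) (by omega) h2
        (by push_cast at h3 ⊢; omega) ⟨x, hx, rfl⟩, ?_⟩
      funext l
      rw [shift_pow_apply]
      show sg K (i + 1 + s) x (l + s) = sg K (i + 1) x l
      by_cases hl : l = i + 1
      · subst hl
        rw [sg_same, sg_same]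
      · rw [sg_ne hl, sg_ne (by omega)]
  obtain ⟨_, ⟨g', hg', rfl⟩, _, ⟨x, rfl⟩, hsum⟩ := Submodule.mem_sup.mp (h1 hg)
  refine ⟨g', hg', ?_⟩
  have h2 : g 0 = x := by
    rw [← hsum, Pi.add_apply, shift_pow_apply]
    show g' (0 + s) + sg K 0 x 0 = x
    rw [sg_same]
    rcases Y.wt_apply hg' (0 + s) with h | ⟨k, j, h3, h4, h5, h6⟩
    · rw [h, zero_add]
    · push_cast at h5
      omega
  rw [h2]
  exact hsum.symm

variable {Y} in
/-- Normal form of the injectivity of `N ^ s`. -/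
theorem Coh.inj_of [CharZero K] {m : ℕ} {V : Type} [AddCommGroup V] [Module K V]
    {cl : (ℕ → H) →ₗ[K] V} {N F : Module.End K V} (hV : Y.Coh m cl N F) (hq : 1 < q) {s : ℕ}
    (hs : 1 ≤ s)
    (h : ∀ j, j + s = m → ∀ y ∈ Y.gr (s - 1) j, Y.gamma (Y.rho y) = 0 →
      sg K s (Y.rho y) ∈ Y.B m)
    (x : V) (hx : x ∈ Y.W m cl s) (h0 : (N ^ s) x = 0) : x = 0 := by
  obtain ⟨z, ⟨hz', hzZ⟩, rfl⟩ := hx
  rw [hV.N_pow_cl s hzZ, hV.ker _ (Y.shift_pow_Z s hzZ)] at h0
  rw [hV.ker z hzZ]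
  have h0' : ((shift K H) ^ s) z ∈ Y.B m := h0
  have hlow : ∀ {n : ℕ} {r : ℕ} {f : ℕ → H}, f ∈ Y.wt n r → ∀ i, i < r → f i = 0 := by
    intro n r f hf i hi
    rcases Y.wt_apply hf i with h | ⟨k, j, h3, h4, h5, h6⟩
    · exact h
    · omega
  rcases m with _ | n
  · have h1 : z = 0 := by
      have h2 : Y.wt 0 s ≤ ⊥ := Y.wt_le fun i k j h1 h2 h3 => by omega
      simpa using h2 hz'
    rw [h1]
    exact Submodule.zero_mem _
  · have hw : ((shift K H) ^ s) z ∈ Y.wt (n + 1) (-s) := by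
      have h1 := pow_mem_grade (W := Y.wt (n + 1)) (N := shift K H)
        (fun r x hx => Y.shift_wt (n + 1) r hx) s s z hz'
      rwa [show (s : ℤ) - 2 * s = -s by ring] at h1
    obtain ⟨g, hg, hgd⟩ := Y.exists_comp_B hq hw h0'
    obtain ⟨g', hg', hgg⟩ := Y.exists_up hg
    -- the cocycle `z - d g'` is `rho (g 0)` in place `s`
    have h1 : z - Y.d g' = sg K s (Y.rho (g 0)) := by
      have h2 : ((shift K H) ^ s) (z - Y.d g') = sg K 0 (Y.rho (g 0)) := by
        rw [map_sub, ← d_shift_pow, ← d_sg_zero, ← hgd, ← map_sub]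
        congr 1
        rw [sub_eq_iff_eq_add, add_comm]
        exact hgg
      funext l
      by_cases hl : l < s
      · rw [sg_ne (by omega), Pi.sub_apply, hlow hz' l hl]
        have h3 := Y.d_wt n _ hg'
        rw [add_sub_cancel_right] at h3
        rw [hlow h3 l hl, sub_zero]
      · obtain ⟨i, rfl⟩ : ∃ i, l = i + s := ⟨l - s, by omega⟩
        rw [← shift_pow_apply (K := K) s (z - Y.d g') i, h2]
        by_cases hi : i = 0
        · subst hi
          rw [zero_add, sg_same, sg_same]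
        · rw [sg_ne hi, sg_ne (by omega)]
    have hd : Y.d g' ∈ Y.B (n + 1) := by
      rw [B_succ]
      exact ⟨g', Y.wt_le_tot _ _ hg', rfl⟩
    have h2 : z = sg K s (Y.rho (g 0)) + Y.d g' := by rw [← h1]; abel
    rw [h2]
    refine Submodule.add_mem _ ?_ hd
    rcases Y.wt_apply hg 0 with h3 | ⟨k, j, h3, h4, h5, h6⟩
    · rw [h3, map_zero, sg, map_zero]
      exact Submodule.zero_mem _
    · obtain rfl : k = s - 1 := by omega
      refine h j (by omega) _ h6 ?_
      have h7 : Y.d (z - Y.d g') = 0 := by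
        rw [map_sub, Y.d_d (Y.wt_le_tot _ _ hg'), sub_zero]
        exact hzZ.2
      rw [h1] at h7
      obtain ⟨t, rfl⟩ : ∃ t, s = t + 1 := ⟨s - 1, by omega⟩
      rw [d_sg_succ, Y.rho_rho] at h7
      have h8 := congrFun h7 t
      rw [Pi.add_apply, sg_ne (by omega), zero_add, sg_same] at h8
      exact h8

variable {Y} in
/-- If the weights `m + s` and `m - s` occur equally often, injectivity gives surjectivity. -/
theorem Coh.surj_of_inj {m : ℕ} {V : Type} [AddCommGroup V] [Module K V]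
    {cl : (ℕ → H) →ₗ[K] V} {N F : Module.End K V} (hV : Y.Coh m cl N F) [FiniteDimensional K V]
    {s : ℕ} (hinj : ∀ x ∈ Y.W m cl s, (N ^ s) x = 0 → x = 0)
    (hdim : finrank K (Y.W m cl s) = finrank K (Y.W m cl (-s)))
    (y : V) (hy : y ∈ Y.W m cl (-s)) : ∃ x ∈ Y.W m cl s, (N ^ s) x = y := by
  have h1 : ∀ x ∈ Y.W m cl s, (N ^ s) x ∈ Y.W m cl (-s) := by
    intro x hx
    have := pow_mem_grade hV.N_W s s x hx
    rwa [show (s : ℤ) - 2 * s = -s by ring] at this
  let f : Y.W m cl s →ₗ[K] Y.W m cl (-s) := (N ^ s).restrict h1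
  have hf : Function.Injective f := by
    rw [injective_iff_map_eq_zero]
    intro x hx
    apply Subtype.ext
    exact hinj x x.2 (congrArg Subtype.val hx)
  have hf2 : Function.Surjective f :=
    (LinearMap.injective_iff_surjective_of_finrank_eq_finrank hdim).mp hf
  obtain ⟨x, hx⟩ := hf2 ⟨y, hy⟩
  exact ⟨x, x.2, congrArg Subtype.val hx⟩

/-- Rows `0` and `1`. -/
theorem inj_of_zero {s : ℕ} {y : H} {m : ℕ} (h : Y.rho y = 0) : sg K s (Y.rho y) ∈ Y.B m := by
  rw [h, sg, map_zero]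
  exact Submodule.zero_mem _

/-- Rows `r ≥ 2`: it suffices that `rho y = gamma v` with `rho v = 0`. -/
theorem inj_of_gamma {s j : ℕ} {y v : H} (hv : v ∈ Y.gr (s + 1) j) (hv0 : Y.rho v = 0)
    (hvy : Y.gamma v = Y.rho y) : sg K s (Y.rho y) ∈ Y.B (s + 1 + j + 1) := by
  rw [B_succ]
  refine ⟨sg K (s + 1) v, Y.cell_le_tot le_rfl rfl ⟨v, hv, rfl⟩, ?_⟩
  rw [d_sg_succ, hv0, hvy]
  simp [sg]

variable {Y} in
/-- The main theorem in the form used for all hand-ins: if `N ^ s` is injective on the part of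
weight `m + s` for all `s ≥ s₀` and there is a form with multiplier `q ^ m`, then the weights of
`gr_s` lie in `[m + s - δ, m + s + δ]`, `δ = max 0 (s₀ - 1 - |s|)`. -/
theorem Coh.weights [CharZero K] [FiniteDimensional K H] {m : ℕ} {V : Type} [AddCommGroup V]
    [Module K V] {cl : (ℕ → H) →ₗ[K] V} {N F : Module.End K V} (hV : Y.Coh m cl N F)
    (hq : 1 < q) {β : V →ₗ[K] V →ₗ[K] K}
    (hβF : ∀ x y, β (F x) (F y) = (q : K) ^ m * β x y)
    (hβ : ∀ x, (∀ y, β x y = 0) → x = 0) {M : ℤ → Submodule K V}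
    (hM : Pool.Agent.WM85.IsMono N M) (s₀ : ℕ)
    (hinj : ∀ s : ℕ, s₀ ≤ s → ∀ x ∈ Y.W m cl s, (N ^ s) x = 0 → x = 0)
    (s δ : ℤ) (hδ : 0 ≤ δ) (hs : (s₀ : ℤ) ≤ δ + 1 + |s|) :
    WeightsGr q (m + s - δ) (m + s + δ) F M s :=
  have := hV.finite
  strings_weights hq (hV.F_injective hq) hV.N_F hM (hV.W_internal hq) hV.N_W (hV.W_pure hq) s₀
    hinj (fun t ht => hV.surj_of_inj (hinj t ht)
      (form_finrank hq (hV.F_injective hq) hβF hβ (hV.W_internal hq) (hV.W_pure hq) t))
    s δ hδ hs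

end Strata

end Pool.Agent.LibX1
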