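import Pool.Agent.LibX1.Strata

/-!
The weight decomposition of the complex and of its cohomology.
-/

namespace Pool.Agent.LibX1

namespace Strata

variable {q : ℕ} {K H : Type} [Field K] [AddCommGroup H] [Module K H] (Y : Strata q K H)

/-- The copy of `gr k j` in place `i`. -/
def cell (i k j : ℕ) : Submodule K (ℕ → H) :=
  (Y.gr k j).map (LinearMap.single K (fun _ : ℕ => H) i)

/-- The indices of the cells of weight `m + r` in degree `m`. -/
def idx (m : ℕ) (r : ℤ) : Finset (ℕ × ℕ) :=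
  (Finset.range (m + 1) ×ˢ Finset.range (m + 1)).filter
    fun c => c.1 ≤ c.2 ∧ (c.2 : ℤ) + r = 2 * c.1

/-- The part of weight `m + r` in degree `m`. -/
def wt (m : ℕ) (r : ℤ) : Submodule K (ℕ → H) :=
  ⨆ c ∈ idx m r, Y.cell c.1 c.2 (m - c.2)

theorem mem_idx {m : ℕ} {r : ℤ} {c : ℕ × ℕ} :
    c ∈ idx m r ↔ c.1 ≤ c.2 ∧ c.2 ≤ m ∧ (c.2 : ℤ) + r = 2 * c.1 := by
  rw [idx, Finset.mem_filter, Finset.mem_product, Finset.mem_range, Finset.mem_range]
  omega

theorem cell_le_wt {m i k j : ℕ} {r : ℤ} (h : i ≤ k) (h' : k + j = m)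
    (h'' : (k : ℤ) + r = 2 * i) : Y.cell i k j ≤ Y.wt m r := by
  have h1 : ((i, k) : ℕ × ℕ) ∈ idx m r := mem_idx.mpr ⟨h, by simp; omega, h''⟩
  have h2 : j = m - k := by omega
  rw [h2]
  exact le_iSup₂_of_le (i, k) h1 le_rfl

theorem wt_le {m : ℕ} {r : ℤ} {S : Submodule K (ℕ → H)}
    (h : ∀ i k j, i ≤ k → k + j = m → (k : ℤ) + r = 2 * i → Y.cell i k j ≤ S) :
    Y.wt m r ≤ S := by
  refine iSup₂_le fun c hc => ?_
  obtain ⟨h1, h2, h3⟩ := mem_idx.mp hc
  exact h _ _ _ h1 (by omega) h3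

theorem cell_le_tot {m i k j : ℕ} (h : i ≤ k) (h' : k + j = m) : Y.cell i k j ≤ Y.tot m := by
  rintro _ ⟨x, hx, rfl⟩
  rw [mem_tot]
  intro l
  rw [LinearMap.single_apply]
  by_cases hl : l = i
  · subst hl
    rw [Pi.single_eq_same]
    exact Y.gr_le_level h h' hx
  · rw [Pi.single_eq_of_ne hl]
    exact Submodule.zero_mem _

theorem wt_le_tot (m : ℕ) (r : ℤ) : Y.wt m r ≤ Y.tot m :=
  Y.wt_le fun _ _ _ h h' _ => Y.cell_le_tot h h'

theorem level_eq_bot {m i : ℕ} (h : m < i) : Y.level m i = ⊥ := by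
  rw [eq_bot_iff]
  exact Y.level_le fun k j h1 h2 => by omega

theorem tot_le_wt (m : ℕ) : Y.tot m ≤ ⨆ r, Y.wt m r := by
  intro f hf
  rw [mem_tot] at hf
  have h1 : f = ∑ i ∈ Finset.range (m + 1), LinearMap.single K (fun _ : ℕ => H) i (f i) := by
    funext l
    rw [Finset.sum_apply]
    by_cases hl : l ∈ Finset.range (m + 1)
    · rw [Finset.sum_eq_single l]
      · rw [LinearMap.single_apply, Pi.single_eq_same]
      · intro i _ hi
        rw [LinearMap.single_apply, Pi.single_eq_of_ne (Ne.symm hi)]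
      · intro h; exact absurd hl h
    · have h2 : f l = 0 := by
        have := hf l
        rwa [Y.level_eq_bot (by simpa using hl), Submodule.mem_bot] at this
      rw [h2]
      symm
      apply Finset.sum_eq_zero
      intro i hi
      rw [LinearMap.single_apply, Pi.single_eq_of_ne (by rintro rfl; exact hl hi)]
  rw [h1]
  apply Submodule.sum_mem
  intro i _
  have h2 : Y.level m i ≤ (⨆ r, Y.wt m r).comap (LinearMap.single K (fun _ : ℕ => H) i) := by
    apply Y.level_le
    intro k j h h' x hx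
    exact Submodule.mem_iSup_of_mem (2 * (i : ℤ) - k)
      (Y.cell_le_wt h h' (by ring) ⟨x, hx, rfl⟩)
  exact h2 (hf i)

theorem d_wt (m : ℕ) (r : ℤ) : Y.wt m r ≤ (Y.wt (m + 1) (r - 1)).comap Y.d := by
  apply Y.wt_le
  rintro i k j h h' h'' _ ⟨x, hx, rfl⟩
  rw [Submodule.mem_comap]
  have hrho : LinearMap.single K (fun _ : ℕ => H) i (Y.rho x) ∈ Y.wt (m + 1) (r - 1) :=
    Y.cell_le_wt (i := i) (k := k + 1) (j := j) (by omega) (by omega) (by push_cast; omega)
      ⟨_, Y.rho_mem k j x hx, rfl⟩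
  rcases i with _ | i
  · have h2 : Y.d (LinearMap.single K (fun _ : ℕ => H) 0 x)
        = LinearMap.single K (fun _ : ℕ => H) 0 (Y.rho x) := by
      funext l
      rw [d_apply, LinearMap.single_apply, LinearMap.single_apply,
        Pi.single_eq_of_ne (Nat.succ_ne_zero l), map_zero, add_zero]
      by_cases hl : l = 0
      · subst hl
        rw [Pi.single_eq_same, Pi.single_eq_same]
      · rw [Pi.single_eq_of_ne hl, Pi.single_eq_of_ne hl, map_zero]
    rw [h2]
    exact hrho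
  · have h2 : Y.d (LinearMap.single K (fun _ : ℕ => H) (i + 1) x)
        = LinearMap.single K (fun _ : ℕ => H) (i + 1) (Y.rho x)
          + LinearMap.single K (fun _ : ℕ => H) i (Y.gamma x) := by
      funext l
      rw [Pi.add_apply, d_apply, LinearMap.single_apply, LinearMap.single_apply,
        LinearMap.single_apply]
      congr 1
      · by_cases hl : l = i + 1
        · subst hl
          rw [Pi.single_eq_same, Pi.single_eq_same]
        · rw [Pi.single_eq_of_ne hl, Pi.single_eq_of_ne hl, map_zero]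
      · by_cases hl : l = i
        · subst hl
          rw [Pi.single_eq_same, Pi.single_eq_same]
        · rw [Pi.single_eq_of_ne hl, Pi.single_eq_of_ne (by omega), map_zero]
    rw [h2]
    refine Submodule.add_mem _ hrho ?_
    obtain ⟨k', rfl⟩ : ∃ k', k = k' + 1 := ⟨k - 1, by omega⟩
    exact Y.cell_le_wt (i := i) (k := k') (j := j + 2) (by omega) (by omega)
      (by push_cast at h'' ⊢; omega) ⟨_, Y.gamma_mem k' j x hx, rfl⟩

theorem shift_wt (m : ℕ) (r : ℤ) : Y.wt m r ≤ (Y.wt m (r - 2)).comap (shift K H) := by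
  apply Y.wt_le
  rintro i k j h h' h'' _ ⟨x, hx, rfl⟩
  rw [Submodule.mem_comap]
  rcases i with _ | i
  · have h2 : shift K H (LinearMap.single K (fun _ : ℕ => H) 0 x) = 0 := by
      funext l
      rw [shift_apply, LinearMap.single_apply, Pi.single_eq_of_ne (Nat.succ_ne_zero l)]
      rfl
    rw [h2]
    exact Submodule.zero_mem _
  · have h2 : shift K H (LinearMap.single K (fun _ : ℕ => H) (i + 1) x)
        = LinearMap.single K (fun _ : ℕ => H) i x := by
      funext l
      rw [shift_apply, LinearMap.single_apply, LinearMap.single_apply]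
      by_cases hl : l = i
      · subst hl
        rw [Pi.single_eq_same, Pi.single_eq_same]
      · rw [Pi.single_eq_of_ne hl, Pi.single_eq_of_ne (by omega)]
    rw [h2]
    exact Y.cell_le_wt (i := i) (k := k) (j := j) (by omega) (by omega)
      (by push_cast at h'' ⊢; omega) ⟨x, hx, rfl⟩

theorem wt_pure (hq : 1 < q) (m : ℕ) (r : ℤ) : PureOn q (m + r) Y.Fr (Y.wt m r) := by
  apply PureOn.finset
  intro c hc
  obtain ⟨h1, h2, h3⟩ := mem_idx.mp hc
  have h4 : (m : ℤ) + r = ((m - c.2 : ℕ) : ℤ) + 2 * c.1 := by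
    rw [Nat.cast_sub h2]
    omega
  rw [h4]
  apply PureOn.twist hq c.1 _ (Y.pure c.2 (m - c.2))
  intro x
  funext l
  rw [Fr_apply, LinearMap.single_apply, Pi.smul_apply, LinearMap.single_apply]
  by_cases hl : l = c.1
  · subst hl
    rw [Pi.single_eq_same, Pi.single_eq_same]
  · rw [Pi.single_eq_of_ne hl, Pi.single_eq_of_ne hl, map_zero, smul_zero, smul_zero]

/-- The components of an element of degree `m`. -/
theorem exists_comp (m : ℕ) {f : ℕ → H} (hf : f ∈ Y.tot m) :
    ∃ (t : Finset ℤ) (g : ℤ → ℕ → H), (∀ r, g r ∈ Y.wt m r) ∧ f = ∑ r ∈ t, g r := by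
  have h1 := Y.tot_le_wt m hf
  clear hf
  induction h1 using Submodule.iSup_induction' with
  | mem r x hx =>
    classical
    refine ⟨{r}, fun i => if i = r then x else 0, fun i => ?_, by simp⟩
    by_cases hi : i = r
    · subst hi; simpa using hx
    · simp [hi]
  | zero => exact ⟨∅, fun _ => 0, fun _ => Submodule.zero_mem _, by simp⟩
  | add x y _ _ hx hy =>
    classical
    obtain ⟨t, g, hg, rfl⟩ := hx
    obtain ⟨t', g', hg', rfl⟩ := hy
    refine ⟨t ∪ t', fun r => (if r ∈ t then g r else 0) + (if r ∈ t' then g' r else 0),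
      fun r => ?_, ?_⟩
    · apply Submodule.add_mem
      · split_ifs
        · exact hg r
        · exact Submodule.zero_mem _
      · split_ifs
        · exact hg' r
        · exact Submodule.zero_mem _
    · rw [Finset.sum_add_distrib]
      congr 1
      · rw [← Finset.sum_filter]
        congr 1
        ext r
        simp
      · rw [← Finset.sum_filter]
        congr 1
        ext r
        simp

section
variable [CharZero K]

/-- The components of a cocycle are cocycles. -/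
theorem exists_comp_Z (hq : 1 < q) (m : ℕ) {f : ℕ → H} (hf : f ∈ Y.Z m) :
    ∃ (t : Finset ℤ) (g : ℤ → ℕ → H), (∀ r ∈ t, g r ∈ Y.wt m r ∧ g r ∈ Y.Z m) ∧
      f = ∑ r ∈ t, g r := by
  obtain ⟨t, g, hg, hfg⟩ := Y.exists_comp m hf.1
  have h1 : ∑ r ∈ t, Y.d (g r) = 0 := by
    rw [← map_sum, ← hfg]
    exact hf.2
  have h2 : ∀ r : ℤ, PureOn q ((m : ℤ) + r) Y.Fr (Y.wt (m + 1) (r - 1)) := by
    intro r
    have := Y.wt_pure hq (m + 1) (r - 1)
    rwa [show ((m + 1 : ℕ) : ℤ) + (r - 1) = (m : ℤ) + r by push_cast; ring] at this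
  have h3 := pure_sum hq h2 t (fun r => Y.d (g r)) (fun r _ => Y.d_wt m r (hg r)) h1
  exact ⟨t, g, fun r hr => ⟨hg r, Y.wt_le_tot m r (hg r), LinearMap.mem_ker.mpr (h3 r hr)⟩, hfg⟩

/-- A coboundary of weight `m + r` is the boundary of a cochain of this weight. -/
theorem exists_comp_B (hq : 1 < q) {n : ℕ} {r : ℤ} {f : ℕ → H} (hf : f ∈ Y.wt (n + 1) r)
    (hB : f ∈ Y.B (n + 1)) : ∃ g ∈ Y.wt n (r + 1), Y.d g = f := by
  classical
  rw [B_succ] at hB
  obtain ⟨g', hg', hfg⟩ := hB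
  obtain ⟨t, g, hg, rfl⟩ := Y.exists_comp n hg'
  have h2 : ∀ i : ℤ, PureOn q ((n : ℤ) + i) Y.Fr (Y.wt (n + 1) (i - 1)) := by
    intro i
    have := Y.wt_pure hq (n + 1) (i - 1)
    rwa [show ((n + 1 : ℕ) : ℤ) + (i - 1) = (n : ℤ) + i by push_cast; ring] at this
  have h3 := pure_sum hq h2 (insert (r + 1) t)
    (fun i => (if i ∈ t then Y.d (g i) else 0) - (if i = r + 1 then f else 0)) ?_ ?_ (r + 1)
    (Finset.mem_insert_self _ _)
  · rw [if_pos rfl, sub_eq_zero] at h3
    by_cases hr : r + 1 ∈ t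
    · rw [if_pos hr] at h3
      exact ⟨g (r + 1), hg _, h3⟩
    · rw [if_neg hr] at h3
      exact ⟨0, Submodule.zero_mem _, by rw [map_zero]; exact h3⟩
  · intro i _
    apply Submodule.sub_mem
    · split_ifs
      · exact Y.d_wt n i (hg i)
      · exact Submodule.zero_mem _
    · split_ifs with h
      · subst h
        rwa [add_sub_cancel_right]
      · exact Submodule.zero_mem _
  · rw [Finset.sum_sub_distrib, sub_eq_zero]
    have h4 : ∑ i ∈ insert (r + 1) t, (if i = r + 1 then f else 0) = f := by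
      rw [Finset.sum_ite_eq']
      simp
    rw [h4, ← hfg, map_sum, ← Finset.sum_filter]
    congr 1
    ext i
    simp

end

/-- The part of weight `m + r` of the cohomology of degree `m`. -/
def W (m : ℕ) {V : Type} [AddCommGroup V] [Module K V] (cl : (ℕ → H) →ₗ[K] V) (r : ℤ) :
    Submodule K V :=
  (Y.wt m r ⊓ Y.Z m).map cl

variable {Y} {m : ℕ} {V : Type} [AddCommGroup V] [Module K V] {cl : (ℕ → H) →ₗ[K] V}
  {N F : Module.End K V}

theorem Coh.aeval_cl (h : Y.Coh m cl N F) (R : Polynomial ℤ) {z : ℕ → H} (hz : z ∈ Y.Z m) :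
    (Polynomial.aeval F R) (cl z) = cl ((Polynomial.aeval Y.Fr R) z) := by
  have hpow : ∀ n : ℕ, (F ^ n) (cl z) = cl ((Y.Fr ^ n) z) ∧ (Y.Fr ^ n) z ∈ Y.Z m := by
    intro n
    induction n with
    | zero => exact ⟨by simp, by simpa using hz⟩
    | succ n ih =>
      rw [pow_succ', Module.End.mul_apply, ih.1, pow_succ', Module.End.mul_apply]
      exact ⟨h.F_cl _ ih.2, Y.Fr_Z ih.2⟩
  rw [Polynomial.aeval_eq_sum_range, Polynomial.aeval_eq_sum_range, LinearMap.sum_apply,
    LinearMap.sum_apply, map_sum]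
  apply Finset.sum_congr rfl
  intro i _
  rw [LinearMap.smul_apply, LinearMap.smul_apply, map_zsmul, (hpow i).1]

theorem Coh.W_pure (h : Y.Coh m cl N F) (hq : 1 < q) (r : ℤ) :
    PureOn q (m + r) F (Y.W m cl r) := by
  obtain ⟨R, hR1, hR2⟩ := Y.wt_pure hq m r
  refine ⟨R, hR1, ?_⟩
  rintro _ ⟨z, hz, rfl⟩
  rw [h.aeval_cl R hz.2, hR2 z hz.1, map_zero]

theorem Coh.N_W (h : Y.Coh m cl N F) (r : ℤ) (x : V) (hx : x ∈ Y.W m cl r) :
    N x ∈ Y.W m cl (r - 2) := by
  obtain ⟨z, hz, rfl⟩ := hx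
  rw [h.N_cl z hz.2]
  exact ⟨_, ⟨Y.shift_wt m r hz.1, Y.shift_Z hz.2⟩, rfl⟩

theorem Coh.W_top [CharZero K] (h : Y.Coh m cl N F) (hq : 1 < q) : ⨆ r, Y.W m cl r = ⊤ := by
  rw [eq_top_iff]
  rintro x -
  obtain ⟨z, hz, rfl⟩ := h.surj x
  obtain ⟨t, g, hg, rfl⟩ := Y.exists_comp_Z hq m hz
  rw [map_sum]
  apply Submodule.sum_mem
  intro r hr
  exact Submodule.mem_iSup_of_mem r ⟨g r, hg r hr, rfl⟩

theorem Coh.W_internal [CharZero K] (h : Y.Coh m cl N F) (hq : 1 < q) :
    DirectSum.IsInternal (Y.W m cl) := by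
  rw [DirectSum.isInternal_submodule_iff_iSupIndep_and_iSup_eq_top]
  exact ⟨pure_indep hq (h.W_pure hq), h.W_top hq⟩

theorem Coh.F_injective [CharZero K] (h : Y.Coh m cl N F) (hq : 1 < q) : Function.Injective F :=
  pure_injective hq (h.W_pure hq) (h.W_top hq)

instance instFiniteTot [FiniteDimensional K H] (m : ℕ) : FiniteDimensional K (Y.tot m) := by
  let f : Y.tot m →ₗ[K] (Fin (m + 1) → H) :=
    (LinearMap.pi fun i : Fin (m + 1) => LinearMap.proj (i : ℕ)) ∘ₗ (Y.tot m).subtype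
  have hf : Function.Injective f := by
    rw [injective_iff_map_eq_zero]
    intro x hx
    apply Subtype.ext
    funext i
    by_cases hi : i < m + 1
    · exact congrFun hx ⟨i, hi⟩
    · have h1 := (Y.mem_tot.mp x.2) i
      rw [Y.level_eq_bot (by omega), Submodule.mem_bot] at h1
      exact h1
  exact FiniteDimensional.of_injective f hf

theorem Coh.finite [FiniteDimensional K H] (h : Y.Coh m cl N F) : FiniteDimensional K V := by
  have h1 : FiniteDimensional K (Y.Z m) :=
    Submodule.finiteDimensional_of_le (inf_le_left : Y.Z m ≤ Y.tot m)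
  apply Module.Finite.of_surjective (cl ∘ₗ (Y.Z m).subtype)
  intro v
  obtain ⟨z, hz, rfl⟩ := h.surj v
  exact ⟨⟨z, hz⟩, rfl⟩

end Strata

end Pool.Agent.LibX1
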