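import Mathlib

/-!
Pure polynomials, pure subspaces and the weights of graded pieces.
-/

namespace Pool.Agent.LibX1

open Polynomial

/-- `R` is not zero and all its complex roots `z` satisfy `|z| ^ 2 = q ^ w`. -/
def Weil (q : ℕ) (w : ℤ) (R : ℤ[X]) : Prop :=
  R ≠ 0 ∧ ∀ z : ℂ, aeval z R = 0 → ‖z‖ ^ 2 = (q : ℝ) ^ w

section
variable {K D : Type*} [Field K] [AddCommGroup D] [Module K D]

/-- `F` is pure of weight `w` on the subspace `S`: it is killed by `R(F)` for some integral
polynomial `R ≠ 0` whose complex roots `z` satisfy `|z| ^ 2 = q ^ w`; for an `F`-stable subspace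
this means that all eigenvalues of `F` on `S` are algebraic numbers and all their complex conjugates
have absolute value `q ^ (w / 2)`. -/
def PureOn (q : ℕ) (w : ℤ) (F : Module.End K D) (S : Submodule K D) : Prop :=
  ∃ R : ℤ[X], Weil q w R ∧ ∀ x ∈ S, (aeval F R) x = 0

/-- `F` is pure of weight `w` on `gr_s = M s / M (s - 1)`: it is killed by `R(F)` for some integral
polynomial `R ≠ 0` whose complex roots `z` satisfy `|z| ^ 2 = q ^ w`. -/
def PureGr (q : ℕ) (w : ℤ) (F : Module.End K D) (M : ℤ → Submodule K D) (s : ℤ) : Prop :=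
  ∃ R : ℤ[X], Weil q w R ∧ ∀ x ∈ M s, (aeval F R) x ∈ M (s - 1)

/-- The weights of `F` on `gr_s = M s / M (s - 1)` lie in `[a, b]`: it is killed by the product of
polynomials `R w (F)`, `a ≤ w ≤ b`, where `R w ≠ 0` is integral and its complex roots `z` satisfy
`|z| ^ 2 = q ^ w`. -/
def WeightsGr (q : ℕ) (a b : ℤ) (F : Module.End K D) (M : ℤ → Submodule K D) (s : ℤ) : Prop :=
  ∃ R : ℤ → ℤ[X], (∀ w, Weil q w (R w)) ∧
    ∀ x ∈ M s, (aeval F (∏ w ∈ Finset.Icc a b, R w)) x ∈ M (s - 1)

end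

end Pool.Agent.LibX1
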