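import Pool.Agent.LibX1.Grade

/-!
A nondegenerate form with multiplier `q ^ m`: the weights `m + r` and `m - r` occur equally often.
-/

namespace Pool.Agent.LibX1

open Polynomial Pool.Agent.WM85 Module

section rev

variable {q : ℕ}

/-- The polynomial with roots `q ^ m / z`. -/
noncomputable def twistRev (q m : ℕ) (G : ℤ[X]) : ℤ[X] :=
  ∑ i ∈ Finset.range (G.natDegree + 1), C (G.coeff i * q ^ (m * i)) * X ^ (G.natDegree - i)

theorem aeval_twistRev {A : Type*} [Ring A] (m : ℕ) (G : ℤ[X]) (z : A) :
    aeval z (twistRev q m G) = ∑ i ∈ Finset.range (G.natDegree + 1),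
      ((G.coeff i * q ^ (m * i) : ℤ) : A) * z ^ (G.natDegree - i) := by
  rw [twistRev, map_sum]
  apply Finset.sum_congr rfl
  intro i _
  rw [map_mul, map_pow, aeval_X, aeval_C]
  rfl

theorem Weil.twistRev (hq : 1 < q) {m : ℕ} {w : ℤ} {G : ℤ[X]} (hG : Weil q w G) :
    Weil q (2 * m - w) (twistRev q m G) := by
  have hq0 : (q : ℝ) ≠ 0 := by exact_mod_cast (by omega : q ≠ 0)
  have hqc : (q : ℂ) ≠ 0 := by exact_mod_cast (by omega : q ≠ 0)
  have h0 : (aeval (0 : ℂ)) (Pool.Agent.LibX1.twistRev q m G) ≠ 0 := by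
    rw [aeval_twistRev, Finset.sum_eq_single G.natDegree]
    · rw [Nat.sub_self, pow_zero, mul_one]
      have : G.coeff G.natDegree ≠ 0 := by
        rw [coeff_natDegree]; exact leadingCoeff_ne_zero.mpr hG.1
      push_cast
      exact mul_ne_zero (by exact_mod_cast this) (pow_ne_zero _ hqc)
    · intro i hi hne
      have : G.natDegree - i ≠ 0 := by
        have := Finset.mem_range.mp hi
        omega
      rw [zero_pow this, mul_zero]
    · intro h
      exact absurd (Finset.mem_range.mpr (Nat.lt_succ_self _)) h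
  refine ⟨?_, ?_⟩
  · intro h
    rw [h, map_zero] at h0
    exact h0 rfl
  · intro z hz
    have hz0 : z ≠ 0 := by
      rintro rfl
      exact h0 hz
    have h1 : (aeval ((q : ℂ) ^ m / z)) G = 0 := by
      have h2 : z ^ G.natDegree * (aeval ((q : ℂ) ^ m / z)) G = 0 := by
        rw [← hz, aeval_twistRev, aeval_eq_sum_range, Finset.mul_sum]
        apply Finset.sum_congr rfl
        intro i hi
        have hi' : i ≤ G.natDegree := by
          have := Finset.mem_range.mp hi
          omega
        have h3 : z ^ G.natDegree = z ^ (G.natDegree - i) * z ^ i := by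
          rw [← pow_add, Nat.sub_add_cancel hi']
        rw [h3, zsmul_eq_mul, div_pow]
        push_cast
        rw [← pow_mul]
        field_simp
      exact (mul_eq_zero.mp h2).resolve_left (pow_ne_zero _ hz0)
    have h2 := hG.2 _ h1
    rw [norm_div, div_pow, norm_pow, Complex.norm_natCast] at h2
    have hz1 : ‖z‖ ^ 2 ≠ 0 := pow_ne_zero _ (norm_ne_zero_iff.mpr hz0)
    rw [zpow_sub₀ hq0, ← h2]
    field_simp
    rw [← pow_mul, ← zpow_natCast]
    push_cast
    ring_nf

end rev

variable {K D : Type*} [Field K] [CharZero K] [AddCommGroup D] [Module K D] {q : ℕ}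

theorem form_orth [FiniteDimensional K D] (hq : 1 < q) {m : ℕ} {F : Module.End K D}
    (hF : Function.Injective F) {β : D →ₗ[K] D →ₗ[K] K}
    (hβ : ∀ x y, β (F x) (F y) = (q : K) ^ m * β x y) {w w' : ℤ} (hw : w + w' ≠ 2 * m)
    {S S' : Submodule K D} (hS : PureOn q w F S) (hS' : PureOn q w' F S')
    {x y : D} (hx : x ∈ S) (hy : y ∈ S') : β x y = 0 := by
  obtain ⟨G, hG1, hG2⟩ := hS
  obtain ⟨G', hG'1, hG'2⟩ := hS'
  have hcop := Weil.coprime K hq (w := 2 * m - w) (w' := w') (by omega) (hG1.twistRev hq) hG'1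
  obtain ⟨a, b, hab⟩ := hcop
  -- `y = G*(F) y'`
  obtain ⟨y', hy'⟩ : ∃ y', y = (aeval F (twistRev q m G)) y' := by
    refine ⟨(aeval F a) y, ?_⟩
    have h1 : (aeval F (a * (twistRev q m G).map (algebraMap ℤ K) + b * G'.map (algebraMap ℤ K))) y
        = y := by
      rw [hab, map_one, Module.End.one_apply]
    rw [map_add, LinearMap.add_apply, map_mul (aeval F) b, Module.End.mul_apply,
      aeval_map_algebraMap, hG'2 y hy, map_zero, add_zero, mul_comm, map_mul,
      Module.End.mul_apply, aeval_map_algebraMap] at h1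
    exact h1.symm
  -- `x = F ^ d x'`
  obtain ⟨x', hx'⟩ : ∃ x', (F ^ G.natDegree) x' = x := by
    have h1 : Function.Surjective F := LinearMap.injective_iff_surjective.mp hF
    have h2 : Function.Surjective (F ^ G.natDegree) := by
      rw [Module.End.coe_pow]
      exact h1.iterate _
    exact h2 x
  have hinj : Function.Injective (F ^ G.natDegree) := by
    rw [Module.End.coe_pow]
    exact hF.iterate _
  have hx0 : (aeval F G) x' = 0 := by
    apply hinj
    rw [map_zero, ← Module.End.mul_apply]
    have h1 : F ^ G.natDegree * (aeval F G) = (aeval F G) * F ^ G.natDegree := by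
      have : F ^ G.natDegree = aeval F (X ^ G.natDegree : ℤ[X]) := by rw [map_pow, aeval_X]
      rw [this, ← map_mul, ← map_mul, mul_comm]
    rw [h1, Module.End.mul_apply, hx', hG2 x hx]
  have hpow : ∀ (j : ℕ) (u v : D), β ((F ^ j) u) ((F ^ j) v) = (q : K) ^ (m * j) * β u v := by
    intro j u v
    induction j with
    | zero => simp
    | succ j ih =>
      rw [pow_succ', Module.End.mul_apply, Module.End.mul_apply, hβ, ih, Nat.mul_succ, pow_add]
      ring
  have h1 : β x y = (q : K) ^ (m * G.natDegree) * β ((aeval F G) x') y' := by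
    rw [hy', ← hx', aeval_twistRev, aeval_eq_sum_range, LinearMap.sum_apply, map_sum,
      LinearMap.sum_apply, map_sum,
      LinearMap.sum_apply, Finset.mul_sum]
    apply Finset.sum_congr rfl
    intro i hi
    have hi' : i ≤ G.natDegree := by
      have := Finset.mem_range.mp hi
      omega
    have h3 : (F ^ G.natDegree) x' = (F ^ (G.natDegree - i)) ((F ^ i) x') := by
      rw [← Module.End.mul_apply, ← pow_add, Nat.sub_add_cancel hi']
    have h4 : (((G.coeff i * q ^ (m * i) : ℤ) : Module.End K D) * F ^ (G.natDegree - i)) y'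
        = ((G.coeff i * q ^ (m * i) : ℤ) : K) • (F ^ (G.natDegree - i)) y' := by
      rw [Module.End.mul_apply, Module.End.intCast_apply, Int.cast_smul_eq_zsmul]
    rw [h4, h3, map_smul, smul_eq_mul, hpow, LinearMap.smul_apply, map_zsmul,
      LinearMap.smul_apply, zsmul_eq_mul]
    have h5 : (q : K) ^ (m * G.natDegree) = (q : K) ^ (m * i) * (q : K) ^ (m * (G.natDegree - i)) := by
      rw [← pow_add, ← Nat.mul_add, Nat.add_sub_cancel' hi']
    rw [h5]
    push_cast
    ring
  rw [h1, hx0, map_zero, LinearMap.zero_apply, mul_zero]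

/-- The weights `m + r` and `m - r` occur equally often. -/
theorem form_finrank [FiniteDimensional K D] (hq : 1 < q) {m : ℕ} {F : Module.End K D}
    (hF : Function.Injective F) {β : D →ₗ[K] D →ₗ[K] K}
    (hβ : ∀ x y, β (F x) (F y) = (q : K) ^ m * β x y) (hnd : ∀ x, (∀ y, β x y = 0) → x = 0)
    {W : ℤ → Submodule K D} (hI : DirectSum.IsInternal W)
    (hW : ∀ r, PureOn q (m + r) F (W r)) (r : ℤ) : finrank K (W r) = finrank K (W (-r)) := by
  obtain ⟨p, hp⟩ := exists_proj hI
  have key : ∀ r : ℤ, finrank K (W r) ≤ finrank K (W (-r)) := by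
    intro r
    let f : W r →ₗ[K] Dual K (W (-r)) :=
      { toFun := fun x => (β x).domRestrict (W (-r))
        map_add' := by intro x y; ext z; simp
        map_smul' := by intro c x; ext z; simp }
    have hf : Function.Injective f := by
      rw [injective_iff_map_eq_zero]
      intro x hx
      apply Subtype.ext
      apply hnd
      intro y
      obtain ⟨t, ht⟩ := hp.sum y
      rw [ht, map_sum]
      apply Finset.sum_eq_zero
      intro i _
      by_cases hi : i = -r
      · subst hi
        have h1 : f x ⟨p (-r) y, hp.mem _ _⟩ = 0 := by rw [hx]; rfl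
        exact h1
      · exact form_orth hq hF hβ (by omega) (hW r) (hW i) x.2 (hp.mem i y)
    calc finrank K (W r) ≤ finrank K (Dual K (W (-r))) := LinearMap.finrank_le_finrank_of_injective hf
      _ = finrank K (W (-r)) := Subspace.dual_finrank_eq
  apply le_antisymm (key r)
  have := key (-r)
  rwa [neg_neg] at this

end Pool.Agent.LibX1
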