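import Pool.Agent.LibX1.Laplace

/-!
The Hodge-Riemann relations in the rows `j ≤ r` (a rational algebra with positive involution which
contains `rho`, `gamma` and the projections, with the adjoints given by the commutators with `Λ`)
imply the hypothesis of the Laplacian argument.
-/

namespace Pool.Agent.LibX1

open Module Finset

section algebra

variable {R : Type*} [Ring R] [StarRing R]

/-- Right annihilators determine left ideals in an algebra with positive involution. -/
theorem exists_left_mul [Algebra ℚ R] [Module.Finite ℚ R]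
    (hpos : ∀ x : R, star x * x = 0 → x = 0) (t δ : R)
    (h : ∀ x, t * x = 0 → δ * x = 0) : ∃ g, δ = g * t := by
  obtain ⟨b, hb⟩ : ∃ b : R, b = star t * t := ⟨_, rfl⟩
  have hsb : star b = b := by rw [hb, star_mul, star_star]
  have h1 : ∀ x : R, b * (b * x) = 0 → b * x = 0 := by
    intro x hx
    apply hpos
    rw [star_mul, hsb, mul_assoc, hx, mul_zero]
  have h2 : ∀ x : R, b * x = 0 → δ * x = 0 := by
    intro x hx
    apply h
    apply hpos
    rw [star_mul, mul_assoc, ← mul_assoc (star t), ← hb, hx, mul_zero]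
  obtain ⟨c, hc⟩ : ∃ c : R, b * (b * c) = b := by
    let L : R →ₗ[ℚ] R := LinearMap.mulLeft ℚ b
    let T : LinearMap.range L →ₗ[ℚ] LinearMap.range L := L.restrict (fun x _ => ⟨x, rfl⟩)
    have hT : Function.Injective T := by
      rw [injective_iff_map_eq_zero]
      rintro ⟨y, x, rfl⟩ hy
      have h3 : b * (b * x) = 0 := congrArg Subtype.val hy
      exact Subtype.ext (h1 x h3)
    have hT2 := LinearMap.injective_iff_surjective.mp hT
    obtain ⟨⟨y, c, rfl⟩, hy⟩ := hT2 ⟨b, 1, mul_one b⟩
    exact ⟨c, congrArg Subtype.val hy⟩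
  have hc' : star c * b * b = b := by
    have := congrArg star hc
    rwa [star_mul, star_mul, hsb] at this
  have h3 : b * c = star c * b := by
    calc b * c = star c * b * b * c := by rw [hc']
      _ = star c * (b * (b * c)) := by simp only [mul_assoc]
      _ = star c * b := by rw [hc]
  have h4 : δ * (1 - b * c) = 0 := by
    apply h2
    rw [mul_sub, mul_one, hc, sub_self]
  rw [mul_sub, mul_one, sub_eq_zero, h3] at h4
  refine ⟨δ * star c * star t, ?_⟩
  rw [mul_assoc, ← hb, mul_assoc]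
  exact h4

variable [Algebra ℚ R] {τ : R →ₗ[ℚ] ℚ}

theorem tau_nonneg (hτ : ∀ x : R, x ≠ 0 → 0 < τ (star x * x)) (x : R) : 0 ≤ τ (star x * x) := by
  by_cases hx : x = 0
  · rw [hx, mul_zero, map_zero]
  · exact (hτ x hx).le

theorem pos_of_tau (hτ : ∀ x : R, x ≠ 0 → 0 < τ (star x * x)) (x : R) (hx : star x * x = 0) :
    x = 0 := by
  by_contra h
  have := hτ x h
  rw [hx, map_zero] at this
  exact lt_irrefl _ this

/-- Weighted positivity. -/
theorem weighted_pos (hτ : ∀ x : R, x ≠ 0 → 0 < τ (star x * x)) {ι : Type*} (I : Finset ι)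
    (c : ι → ℕ) (hc : ∀ i ∈ I, 0 < c i) (E : ι → R) (hE : ∀ i ∈ I, star (E i) = E i)
    (hE2 : ∀ i ∈ I, E i * E i = E i) (y : R) (hy : (∑ i ∈ I, E i) * y = y)
    (h0 : star y * (∑ i ∈ I, c i • E i) * y = 0) : y = 0 := by
  have h1 : ∀ i ∈ I, star (E i * y) * (E i * y) = star y * E i * y := by
    intro i hi
    rw [star_mul, hE i hi, mul_assoc, ← mul_assoc (E i), hE2 i hi, mul_assoc]
  have h2 : ∑ i ∈ I, c i • τ (star (E i * y) * (E i * y)) = 0 := by
    have h3 : star y * (∑ i ∈ I, c i • E i) * y = ∑ i ∈ I, c i • (star (E i * y) * (E i * y)) := by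
      rw [Finset.mul_sum, Finset.sum_mul]
      apply Finset.sum_congr rfl
      intro i hi
      rw [h1 i hi, mul_smul_comm, smul_mul_assoc]
    rw [h3] at h0
    have := congrArg τ h0
    rw [map_sum, map_zero] at this
    rw [← this]
    apply Finset.sum_congr rfl
    intro i _
    rw [map_nsmul]
  have h3 : ∀ i ∈ I, E i * y = 0 := by
    intro i hi
    have h4 := (Finset.sum_eq_zero_iff_of_nonneg (fun i _ =>
      nsmul_nonneg (tau_nonneg hτ (E i * y)) (c i))).mp h2 i hi
    have h5 : τ (star (E i * y) * (E i * y)) = 0 := by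
      rw [nsmul_eq_mul, mul_eq_zero] at h4
      rcases h4 with h | h
      · exact absurd h (by exact_mod_cast (hc i hi).ne')
      · exact h
    by_contra h
    exact (hτ _ h).ne' h5
  rw [← hy, Finset.sum_mul]
  exact Finset.sum_eq_zero h3

/-- The algebraic core. -/
theorem core_pos [Module.Finite ℚ R] (hτ : ∀ x : R, x ≠ 0 → 0 < τ (star x * x))
    {ι : Type*} (I : Finset ι)
    (α β : ι → ℕ) (hα : ∀ i ∈ I, 0 < α i) (hβ : ∀ i ∈ I, 0 < β i) (A B : ι → R)
    (hA : ∀ i ∈ I, star (A i) = A i) (hA2 : ∀ i ∈ I, A i * A i = A i)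
    (hB : ∀ i ∈ I, star (B i) = B i) (hB2 : ∀ i ∈ I, B i * B i = B i) (δ : R)
    (hAδ : (∑ i ∈ I, A i) * δ = δ) (hBδ : (∑ i ∈ I, B i) * star δ = star δ) :
    ∃ g, δ = g * (δ * ((∑ i ∈ I, β i • B i) * star δ * (∑ i ∈ I, α i • A i)) * δ) := by
  apply exists_left_mul (pos_of_tau hτ)
  intro x hx
  obtain ⟨W0, hW0⟩ : ∃ W0, W0 = ∑ i ∈ I, α i • A i := ⟨_, rfl⟩
  obtain ⟨W1, hW1⟩ : ∃ W1, W1 = ∑ i ∈ I, β i • B i := ⟨_, rfl⟩
  rw [← hW0, ← hW1] at hx
  have hW0s : star W0 = W0 := by
    rw [hW0, star_sum]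
    apply Finset.sum_congr rfl
    intro i hi
    rw [star_nsmul, hA i hi]
  have hy1 : star δ * W0 * δ * x = 0 := by
    apply weighted_pos hτ I β hβ B hB hB2
    · simp only [← mul_assoc]
      rw [hBδ]
    · rw [← hW1]
      have h1 : star (star δ * W0 * δ * x) = star x * star δ * W0 * δ := by
        simp only [star_mul, star_star, hW0s, mul_assoc]
      rw [h1]
      calc star x * star δ * W0 * δ * W1 * (star δ * W0 * δ * x)
          = star x * star δ * W0 * (δ * (W1 * star δ * W0) * δ * x) := by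
            simp only [mul_assoc]
        _ = 0 := by rw [hx, mul_zero]
  apply weighted_pos hτ I α hα A hA hA2
  · rw [← mul_assoc, hAδ]
  · rw [← hW0]
    calc star (δ * x) * W0 * (δ * x) = star x * (star δ * W0 * δ * x) := by
          simp only [star_mul, mul_assoc]
      _ = 0 := by rw [hy1, mul_zero]

end algebra

end Pool.Agent.LibX1
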