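import Pool.Agent.LibX1.Normal

/-!
The Laplacian argument: for any operator `Λ` which lowers the degree of the cohomology of the strata
by `2`, the operator `d S + S d` commutes with the monodromy, where `S` is the combination of the
commutators of `Λ` with `rho` and `gamma` which is the adjoint of `d` if the Hodge-Riemann relations
hold. Positivity is needed only in the row `m - s`.
-/

namespace Pool.Agent.LibX1

open Module

namespace Strata

variable {q : ℕ} {K H : Type} [Field K] [AddCommGroup H] [Module K H] (Y : Strata q K H)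

/-- The operator `Λ` lowers the degree by `2`. -/
def Lowers (Λ : Module.End K H) : Prop :=
  ∀ k j, ∀ x ∈ Y.gr k j, (2 ≤ j ∧ Λ x ∈ Y.gr k (j - 2)) ∨ Λ x = 0

/-- `[Λ, rho]`. -/
def rho' (Λ : Module.End K H) : Module.End K H := Λ * Y.rho - Y.rho * Λ

/-- `[Λ, gamma]`. -/
def gamma' (Λ : Module.End K H) : Module.End K H := Λ * Y.gamma - Y.gamma * Λ

/-- `Λ` on sequences. -/
def lam (Λ : Module.End K H) : Module.End K (ℕ → H) :=
  LinearMap.pi fun i => Λ ∘ₗ LinearMap.proj i

/-- The candidate for the adjoint of `d` on the part of weight `r`. -/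
def S (Λ : Module.End K H) (r : ℤ) : Module.End K (ℕ → H) :=
  LinearMap.pi fun i => (i : K) • (Y.rho' Λ ∘ₗ LinearMap.proj (i - 1)) -
    ((i : K) - (r : K)) • (Y.gamma' Λ ∘ₗ LinearMap.proj i)

theorem lam_apply (Λ : Module.End K H) (f : ℕ → H) (i : ℕ) : lam Λ f i = Λ (f i) := rfl

theorem rho'_apply (Λ : Module.End K H) (x : H) :
    Y.rho' Λ x = Λ (Y.rho x) - Y.rho (Λ x) := rfl

theorem gamma'_apply (Λ : Module.End K H) (x : H) :
    Y.gamma' Λ x = Λ (Y.gamma x) - Y.gamma (Λ x) := rfl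

theorem S_apply (Λ : Module.End K H) (r : ℤ) (f : ℕ → H) (i : ℕ) :
    Y.S Λ r f i = (i : K) • Y.rho' Λ (f (i - 1)) - ((i : K) - (r : K)) • Y.gamma' Λ (f i) := rfl

variable {Λ : Module.End K H}

/-- `N S - S N = [Λ, d]`. -/
theorem shift_S (r : ℤ) (f : ℕ → H) :
    shift K H (Y.S Λ r f) = Y.S Λ (r - 2) (shift K H f) + (lam Λ (Y.d f) - Y.d (lam Λ f)) := by
  funext i
  rw [shift_apply, S_apply, Pi.add_apply, S_apply, shift_apply, shift_apply, Pi.sub_apply,
    lam_apply, d_apply, d_apply, lam_apply, lam_apply, Nat.add_sub_cancel]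
  have h1 : (i : K) • Y.rho' Λ (f (i - 1 + 1)) = (i : K) • Y.rho' Λ (f i) := by
    rcases i with _ | i
    · simp
    · rw [Nat.add_sub_cancel]
  rw [h1, map_add, rho'_apply, gamma'_apply]
  push_cast
  module

theorem lam_tot (hΛ : Y.Lowers Λ) {m : ℕ} {f : ℕ → H} (hf : f ∈ Y.tot m) :
    ∃ n, lam Λ f ∈ Y.tot n := by
  rw [mem_tot] at hf
  refine ⟨m - 2, Y.mem_tot.mpr fun i => ?_⟩
  have h1 : Y.level m i ≤ (Y.level (m - 2) i).comap Λ := by
    apply Y.level_le
    intro k j h h' x hx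
    rw [Submodule.mem_comap]
    rcases hΛ k j x hx with ⟨h2, h3⟩ | h2
    · exact Y.gr_le_level h (by omega) h3
    · rw [h2]
      exact Submodule.zero_mem _
  exact h1 (hf i)

/-- The Laplacian. -/
def box (Λ : Module.End K H) (r : ℤ) : Module.End K (ℕ → H) :=
  Y.d * Y.S Λ r + Y.S Λ (r - 1) * Y.d

theorem box_apply (r : ℤ) (f : ℕ → H) :
    Y.box Λ r f = Y.d (Y.S Λ r f) + Y.S Λ (r - 1) (Y.d f) := rfl

/-- The Laplacian commutes with the monodromy. -/
theorem shift_box (hΛ : Y.Lowers Λ) (r : ℤ) {m : ℕ} {f : ℕ → H} (hf : f ∈ Y.tot m) :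
    shift K H (Y.box Λ r f) = Y.box Λ (r - 2) (shift K H f) := by
  obtain ⟨n, hn⟩ := Y.lam_tot hΛ hf
  rw [box_apply, box_apply, map_add, ← d_shift, shift_S, shift_S, map_add, map_sub, ← d_shift,
    show r - 1 - 2 = r - 2 - 1 by ring, Y.d_d hf, map_zero, Y.d_d hn]
  abel

theorem shift_pow_tot (s : ℕ) {m : ℕ} {f : ℕ → H} (hf : f ∈ Y.tot m) :
    ((shift K H) ^ s) f ∈ Y.tot m := by
  induction s with
  | zero => simpa using hf
  | succ s ih =>
    rw [pow_succ', Module.End.mul_apply]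
    exact Y.shift_tot ih

theorem shift_pow_box (hΛ : Y.Lowers Λ) (s : ℕ) (r : ℤ) {m : ℕ} {f : ℕ → H}
    (hf : f ∈ Y.tot m) :
    ((shift K H) ^ s) (Y.box Λ r f) = Y.box Λ (r - 2 * s) (((shift K H) ^ s) f) := by
  induction s with
  | zero => simp
  | succ s ih =>
    rw [pow_succ', Module.End.mul_apply, ih, Y.shift_box hΛ _ (Y.shift_pow_tot s hf),
      Module.End.mul_apply]
    congr 2
    push_cast
    ring

/-- `S` maps weight `m + r` in degree `m` to degree `m - 1`. -/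
theorem S_wt (hΛ : Y.Lowers Λ) (n : ℕ) (r : ℤ) :
    Y.wt (n + 1) r ≤ (Y.wt n (r + 1)).comap (Y.S Λ r) := by
  apply Y.wt_le
  rintro i k j h h' h'' _ ⟨x, hx, rfl⟩
  rw [Submodule.mem_comap]
  have h1 : Y.S Λ r (sg K i x) = ((i + 1 : ℕ) : K) • sg K (i + 1) (Y.rho' Λ x) -
      ((i : K) - (r : K)) • sg K i (Y.gamma' Λ x) := by
    funext l
    rw [S_apply, Pi.sub_apply, Pi.smul_apply, Pi.smul_apply]
    congr 1
    · by_cases hl : l = i + 1
      · subst hl
        rw [Nat.add_sub_cancel, sg_same, sg_same]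
      · rw [sg_ne hl, smul_zero]
        rcases l with _ | l
        · simp
        · rw [Nat.add_sub_cancel, sg_ne (by omega), map_zero, smul_zero]
    · by_cases hl : l = i
      · subst hl
        rw [sg_same, sg_same]
      · rw [sg_ne hl, sg_ne hl, map_zero, smul_zero, smul_zero]
  show Y.S Λ r (sg K i x) ∈ Y.wt n (r + 1)
  rw [h1]
  apply Submodule.sub_mem
  · apply Submodule.smul_mem
    rw [rho'_apply, sg, map_sub]
    apply Submodule.sub_mem
    · rcases hΛ _ _ _ (Y.rho_mem k j x hx) with ⟨h2, h3⟩ | h2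
      · exact Y.cell_le_wt (i := i + 1) (k := k + 1) (j := j - 2) (by omega) (by omega)
          (by push_cast; omega) ⟨_, h3, rfl⟩
      · rw [h2, map_zero]
        exact Submodule.zero_mem _
    · rcases hΛ _ _ _ hx with ⟨h2, h3⟩ | h2
      · exact Y.cell_le_wt (i := i + 1) (k := k + 1) (j := j - 2) (by omega) (by omega)
          (by push_cast; omega) ⟨_, Y.rho_mem k (j - 2) _ h3, rfl⟩
      · rw [h2, map_zero, map_zero]
        exact Submodule.zero_mem _
  · by_cases hk : k = i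
    · have h2 : (i : K) - (r : K) = 0 := by
        have h3 : r = i := by omega
        rw [h3]
        push_cast
        ring
      rw [h2, zero_smul]
      exact Submodule.zero_mem _
    · obtain ⟨k', rfl⟩ : ∃ k', k = k' + 1 := ⟨k - 1, by omega⟩
      apply Submodule.smul_mem
      rw [gamma'_apply, sg, map_sub]
      apply Submodule.sub_mem
      · rcases hΛ _ _ _ (Y.gamma_mem k' j x hx) with ⟨h2, h3⟩ | h2
        · rw [Nat.add_sub_cancel] at h3
          exact Y.cell_le_wt (i := i) (k := k') (j := j) (by omega) (by omega)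
            (by push_cast at h'' ⊢; omega) ⟨_, h3, rfl⟩
        · rw [h2, map_zero]
          exact Submodule.zero_mem _
      · rcases hΛ _ _ _ hx with ⟨h2, h3⟩ | h2
        · have h4 := Y.gamma_mem k' (j - 2) _ h3
          rw [Nat.sub_add_cancel h2] at h4
          exact Y.cell_le_wt (i := i) (k := k') (j := j) (by omega) (by omega)
            (by push_cast at h'' ⊢; omega) ⟨_, h4, rfl⟩
        · rw [h2, map_zero, map_zero]
          exact Submodule.zero_mem _

variable {Y} in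
/-- **The Laplacian argument.** If `d S d w = 0` implies `d w = 0` for the cochains `w` of weight
`m - s` and degree `m - 1`, then `N ^ s` is injective on the part of weight `m + s`. -/
theorem Coh.inj_of_laplace [CharZero K] [FiniteDimensional K H] {n : ℕ} {V : Type}
    [AddCommGroup V] [Module K V]
    {cl : (ℕ → H) →ₗ[K] V} {N F : Module.End K V} (hV : Y.Coh (n + 1) cl N F) (hq : 1 < q)
    (hΛ : Y.Lowers Λ) {s : ℕ}
    (h : ∀ w ∈ Y.wt n (-s + 1), Y.d (Y.S Λ (-s) (Y.d w)) = 0 → Y.d w = 0)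
    (x : V) (hx : x ∈ Y.W (n + 1) cl s) (h0 : (N ^ s) x = 0) : x = 0 := by
  obtain ⟨z, ⟨hz, hzZ⟩, rfl⟩ := hx
  rw [hV.N_pow_cl s hzZ, hV.ker _ (Y.shift_pow_Z s hzZ)] at h0
  rw [hV.ker z hzZ]
  -- the cocycles of weight `m + s` whose image under `N ^ s` is a coboundary
  let Z' : Submodule K (ℕ → H) :=
    (Y.wt (n + 1) s ⊓ LinearMap.ker Y.d) ⊓ ((Y.wt n (-s + 1)).map Y.d).comap ((shift K H) ^ s)
  have hfin : FiniteDimensional K Z' := by
    have h1 : Z' ≤ Y.tot (n + 1) := fun y hy => Y.wt_le_tot _ _ hy.1.1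
    exact Submodule.finiteDimensional_of_le h1
  have hup : ∀ y ∈ Y.wt (n + 1) s, ((shift K H) ^ s) y ∈ Y.wt (n + 1) (-s) := by
    intro y hy
    have h1 := pow_mem_grade (W := Y.wt (n + 1)) (N := shift K H)
      (fun r x hx => Y.shift_wt (n + 1) r hx) s s y hy
    rwa [show (s : ℤ) - 2 * s = -s by ring] at h1
  have hup' : ∀ y ∈ Y.wt n (s + 1), ((shift K H) ^ s) y ∈ Y.wt n (-s + 1) := by
    intro y hy
    have h1 := pow_mem_grade (W := Y.wt n) (N := shift K H)
      (fun r x hx => Y.shift_wt n r hx) s (s + 1) y hy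
    rwa [show (s : ℤ) + 1 - 2 * s = -s + 1 by ring] at h1
  have hd : ∀ y, Y.d y = 0 → Y.box Λ s y = Y.d (Y.S Λ s y) := by
    intro y hy
    rw [box_apply, hy, map_zero, add_zero]
  have hbox : ∀ y ∈ Z', Y.box Λ s y ∈ Z' := by
    intro y hy
    obtain ⟨⟨hy1, hy2⟩, hy3⟩ := hy
    have hy2' : Y.d y = 0 := hy2
    have h1 : Y.S Λ s y ∈ Y.wt n (s + 1) := Y.S_wt hΛ n s hy1
    have h2 := Y.d_wt n (s + 1) h1
    rw [add_sub_cancel_right] at h2
    refine ⟨⟨?_, ?_⟩, ?_⟩
    · rw [hd y hy2']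
      exact h2
    · rw [hd y hy2']
      exact LinearMap.mem_ker.mpr (Y.d_d (Y.wt_le_tot _ _ h1))
    · show ((shift K H) ^ s) (Y.box Λ s y) ∈ (Y.wt n (-s + 1)).map Y.d
      rw [hd y hy2', ← d_shift_pow]
      exact ⟨_, hup' _ h1, rfl⟩
  let f : Z' →ₗ[K] Z' := (Y.box Λ s).restrict hbox
  have hf : Function.Injective f := by
    rw [injective_iff_map_eq_zero]
    rintro ⟨y, hy⟩ hfy
    have h1 : Y.box Λ s y = 0 := congrArg Subtype.val hfy
    obtain ⟨⟨hy1, hy2⟩, ⟨w, hw, hwy⟩⟩ := hy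
    have h2 := Y.shift_pow_box hΛ s s (Y.wt_le_tot _ _ hy1)
    rw [h1, map_zero, show (s : ℤ) - 2 * s = -s by ring, ← hwy, box_apply,
      Y.d_d (Y.wt_le_tot _ _ hw), map_zero, add_zero] at h2
    have h3 := h w hw h2.symm
    rw [h3] at hwy
    apply Subtype.ext
    funext i
    by_cases hi : i < s
    · rcases Y.wt_apply hy1 i with h | ⟨k, j, h4, h5, h6, h7⟩
      · exact h
      · omega
    · have h4 := congrFun hwy (i - s)
      rw [shift_pow_apply, Nat.sub_add_cancel (by omega)] at h4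
      exact h4.symm
  have hf2 : Function.Surjective f := LinearMap.injective_iff_surjective.mp hf
  have hz' : z ∈ Z' := by
    refine ⟨⟨hz, hzZ.2⟩, ?_⟩
    obtain ⟨g, hg, hgd⟩ := Y.exists_comp_B hq (hup z hz) h0
    exact ⟨g, hg, hgd⟩
  obtain ⟨⟨y, hy⟩, hyz⟩ := hf2 ⟨z, hz'⟩
  have h1 : Y.box Λ s y = z := congrArg Subtype.val hyz
  rw [← h1, hd y hy.1.2, B_succ]
  exact ⟨_, Y.wt_le_tot _ _ (Y.S_wt hΛ n s hy.1.1), rfl⟩

end Strata

end Pool.Agent.LibX1
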