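import Mathlib

/-!
Finite-dimensional rational algebras with a positive involution: `u` is a left multiple of
`star u * u`.
-/

namespace Pool.Agent.LibX1

section
variable {R : Type*} [Ring R] [StarRing R] [Algebra ℚ R] [Module.Finite ℚ R]

/-- If `star x * x = 0` only for `x = 0`, then `u ∈ R * (star u * u)` for all `u`. -/
theorem exists_mul_star (hpos : ∀ u : R, star u * u = 0 → u = 0) (u : R) :
    ∃ g : R, u = g * (star u * u) := by
  obtain ⟨a, ha⟩ : ∃ a : R, a = star u * u := ⟨_, rfl⟩
  have hsa : star a = a := by rw [ha, star_mul, star_star]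
  have h1 : ∀ x : R, a * (a * x) = 0 → a * x = 0 := by
    intro x hx
    apply hpos
    rw [star_mul, hsa, mul_assoc, hx, mul_zero]
  have h2 : ∀ x : R, a * x = 0 → u * x = 0 := by
    intro x hx
    apply hpos
    rw [star_mul, mul_assoc, ← mul_assoc (star u), ← ha, hx, mul_zero]
  obtain ⟨c, hc⟩ : ∃ c : R, a * (a * c) = a := by
    let L : R →ₗ[ℚ] R := LinearMap.mulLeft ℚ a
    let T : LinearMap.range L →ₗ[ℚ] LinearMap.range L :=
      L.restrict (fun x _ => ⟨x, rfl⟩)
    have hT : Function.Injective T := by
      rw [injective_iff_map_eq_zero]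
      rintro ⟨y, x, rfl⟩ hy
      have h3 : a * (a * x) = 0 := congrArg Subtype.val hy
      exact Subtype.ext (h1 x h3)
    have hT2 := LinearMap.injective_iff_surjective.mp hT
    obtain ⟨⟨y, c, rfl⟩, hy⟩ := hT2 ⟨a, 1, mul_one a⟩
    exact ⟨c, congrArg Subtype.val hy⟩
  have hc' : star c * a * a = a := by
    have := congrArg star hc
    rwa [star_mul, star_mul, hsa] at this
  have h3 : a * c = star c * a := by
    calc a * c = star c * a * a * c := by rw [hc']
      _ = star c * (a * (a * c)) := by simp only [mul_assoc]
      _ = star c * a := by rw [hc]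
  have h4 : u * (1 - a * c) = 0 := by
    apply h2
    rw [mul_sub, mul_one, hc, sub_self]
  rw [mul_sub, mul_one, sub_eq_zero, h3] at h4
  exact ⟨u * star c, by rw [← ha, mul_assoc]; exact h4⟩

variable {K A : Type*} [Field K] [AddCommGroup A] [Module K A]

/-- If an algebra with positive involution acts on a space with a nondegenerate form and the
involution is the adjoint, then the image of each element is anisotropic in the sense needed here. -/
theorem polMap (hpos : ∀ u : R, star u * u = 0 → u = 0) (π : R →+* Module.End K A)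
    (P : A →ₗ[K] A →ₗ[K] K) (hP : ∀ u x y, P (π u x) y = P x (π (star u) y))
    (hnd : ∀ y, (∀ x, P x y = 0) → y = 0) (u : R) (y : A)
    (h : ∀ x, P (π u x) (π u y) = 0) : π u y = 0 := by
  obtain ⟨g, hg⟩ := exists_mul_star hpos u
  have h1 : π (star u * u) y = 0 := by
    apply hnd
    intro x
    rw [map_mul, Module.End.mul_apply, ← hP, h]
  rw [hg, map_mul, Module.End.mul_apply, h1, map_zero]

end

end Pool.Agent.LibX1
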