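import Pool.Agent.LibX1.Normal
import Pool.Agent.LibX1.Pol

/-!
Rows with a positive involution: `gamma (rho y) = 0` implies `rho y = 0`.
-/

namespace Pool.Agent.LibX1

namespace Strata

variable {q : ℕ} {K H : Type} [Field K] [AddCommGroup H] [Module K H] (Y : Strata q K H)

/-- In the rows `j ≤ r` the restriction map `rho` is given by an element `a` of a finite-dimensional
rational algebra `R` acting on `H`, with an involution which is the adjoint for the nondegenerate
form `P` and positive: `star b * b = 0` only for `b = 0`. If `gamma y = 0`, `y` in row `j ≤ r`, then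
`y` is orthogonal to the image of `a`. -/
def Positive (r : ℕ) (P : H →ₗ[K] H →ₗ[K] K) (R : Type) [Ring R] [StarRing R]
    (π : R →+* Module.End K H) (a : R) : Prop :=
  (∀ y, (∀ x, P x y = 0) → y = 0) ∧ (∀ b : R, star b * b = 0 → b = 0) ∧
  (∀ b x y, P (π b x) y = P x (π (star b) y)) ∧
  (∀ j ≤ r, ∀ k, ∀ x ∈ Y.gr k j, π a x = Y.rho x) ∧
  ∀ j ≤ r, ∀ k, ∀ y ∈ Y.gr (k + 1) j, Y.gamma y = 0 → ∀ x, P (π a x) y = 0

variable {Y} in
theorem Positive.inj {r : ℕ} {P : H →ₗ[K] H →ₗ[K] K} {R : Type} [Ring R] [StarRing R]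
    [Algebra ℚ R] [Module.Finite ℚ R] {π : R →+* Module.End K H} {a : R}
    (h : Y.Positive r P R π a) {j k : ℕ} (hj : j ≤ r) {y : H} (hy : y ∈ Y.gr k j)
    (h0 : Y.gamma (Y.rho y) = 0) : Y.rho y = 0 := by
  obtain ⟨hnd, hpos, hadj, hrho, hg⟩ := h
  rw [← hrho j hj k y hy]
  apply polMap hpos π P hadj hnd a y
  intro x
  rw [hrho j hj k y hy]
  exact hg j hj k _ (Y.rho_mem k j y hy) h0 x

end Strata

end Pool.Agent.LibX1
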