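import Pool.Agent.LibX1.Form

/-!
Calculus of pure subspaces.
-/

namespace Pool.Agent.LibX1

open Polynomial

theorem Weil.ne_zero {q : ℕ} (hq : 1 < q) {w : ℤ} {R : ℤ[X]} (hR : Weil q w R) :
    R.coeff 0 ≠ 0 := by
  intro h
  have h1 : (aeval (0 : ℂ)) R = 0 := by
    rw [← coeff_zero_eq_aeval_zero', h, map_zero]
  have h2 := hR.2 0 h1
  rw [norm_zero, zero_pow two_ne_zero] at h2
  exact (zpow_ne_zero w (by exact_mod_cast (by omega : q ≠ 0))) h2.symm

theorem Weil.mul {q : ℕ} {w : ℤ} {R R' : ℤ[X]} (hR : Weil q w R) (hR' : Weil q w R') :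
    Weil q w (R * R') := by
  refine ⟨mul_ne_zero hR.1 hR'.1, fun z hz => ?_⟩
  rw [map_mul, mul_eq_zero] at hz
  rcases hz with h | h
  · exact hR.2 z h
  · exact hR'.2 z h

theorem Weil.one (q : ℕ) (w : ℤ) : Weil q w 1 := by
  refine ⟨one_ne_zero, fun z hz => ?_⟩
  rw [map_one] at hz
  exact absurd hz one_ne_zero

section
variable {K D D' : Type*} [Field K] [AddCommGroup D] [Module K D] [AddCommGroup D'] [Module K D']
  {q : ℕ} {w : ℤ} {F : Module.End K D} {F' : Module.End K D'} {S S' : Submodule K D}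

theorem PureOn.mono (h : PureOn q w F S') (hS : S ≤ S') : PureOn q w F S := by
  obtain ⟨R, hR1, hR2⟩ := h
  exact ⟨R, hR1, fun x hx => hR2 x (hS hx)⟩

theorem PureOn.bot : PureOn q w F ⊥ := by
  refine ⟨1, Weil.one q w, fun x hx => ?_⟩
  rw [(Submodule.mem_bot K).mp hx, map_zero]

theorem PureOn.sup (h : PureOn q w F S) (h' : PureOn q w F S') : PureOn q w F (S ⊔ S') := by
  obtain ⟨R, hR1, hR2⟩ := h
  obtain ⟨R', hR'1, hR'2⟩ := h'
  refine ⟨R * R', hR1.mul hR'1, fun x hx => ?_⟩
  obtain ⟨y, hy, z, hz, rfl⟩ := Submodule.mem_sup.mp hx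
  rw [map_add]
  have h1 : (aeval F (R * R')) y = 0 := by
    rw [mul_comm, map_mul, Module.End.mul_apply, hR2 y hy, map_zero]
  have h2 : (aeval F (R * R')) z = 0 := by
    rw [map_mul, Module.End.mul_apply, hR'2 z hz, map_zero]
  rw [h1, h2, add_zero]

theorem PureOn.finset {ι : Type*} (t : Finset ι) {W : ι → Submodule K D}
    (h : ∀ i ∈ t, PureOn q w F (W i)) : PureOn q w F (⨆ i ∈ t, W i) := by
  classical
  induction t using Finset.induction_on with
  | empty =>
    apply PureOn.bot.mono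
    simp
  | insert a t ha ih =>
    rw [Finset.iSup_insert]
    exact (h a (Finset.mem_insert_self a t)).sup
      (ih (fun i hi => h i (Finset.mem_insert_of_mem hi)))

theorem aeval_intertwine {f : D →ₗ[K] D'} (hf : ∀ x, f (F x) = F' (f x)) (R : ℤ[X]) (x : D) :
    f ((aeval F R) x) = (aeval F' R) (f x) := by
  have hpow : ∀ (n : ℕ) (y : D), f ((F ^ n) y) = (F' ^ n) (f y) := by
    intro n y
    induction n with
    | zero => simp
    | succ n ih => rw [pow_succ', Module.End.mul_apply, hf, ih, pow_succ', Module.End.mul_apply]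
  rw [aeval_eq_sum_range, aeval_eq_sum_range, LinearMap.sum_apply, LinearMap.sum_apply, map_sum]
  apply Finset.sum_congr rfl
  intro i _
  rw [LinearMap.smul_apply, LinearMap.smul_apply, map_zsmul, hpow]

theorem PureOn.map {f : D →ₗ[K] D'} (hf : ∀ x, f (F x) = F' (f x)) (h : PureOn q w F S) :
    PureOn q w F' (S.map f) := by
  obtain ⟨R, hR1, hR2⟩ := h
  refine ⟨R, hR1, fun x hx => ?_⟩
  obtain ⟨y, hy, rfl⟩ := hx
  rw [← aeval_intertwine hf, hR2 y hy, map_zero]

theorem PureOn.comap {f : D →ₗ[K] D'} (hf : ∀ x, f (F x) = F' (f x))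
    (hinj : Function.Injective f) {T : Submodule K D'} (h : PureOn q w F' T) :
    PureOn q w F (T.comap f) := by
  obtain ⟨R, hR1, hR2⟩ := h
  refine ⟨R, hR1, fun x hx => ?_⟩
  apply hinj
  rw [aeval_intertwine hf, map_zero, hR2 _ hx]

/-- `F` is pure of weight `w + 2 i` on the image of `S` under `f` if `F' (f x) = q ^ i f (F x)`. -/
theorem PureOn.twist (hq : 1 < q) {f : D →ₗ[K] D'} (i : ℕ)
    (hf : ∀ x, F' (f x) = (q : K) ^ i • f (F x)) (h : PureOn q w F S) :
    PureOn q (w + 2 * i) F' (S.map f) := by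
  obtain ⟨R, hR1, hR2⟩ := h
  have hpow : ∀ (n : ℕ) (y : D), (F' ^ n) (f y) = (q : K) ^ (i * n) • f ((F ^ n) y) := by
    intro n y
    induction n with
    | zero => simp
    | succ n ih =>
      rw [pow_succ', Module.End.mul_apply, ih, map_smul, hf, smul_smul, ← pow_add, pow_succ',
        Module.End.mul_apply, Nat.mul_succ]
  have hq0 : (q : ℝ) ≠ 0 := by exact_mod_cast (by omega : q ≠ 0)
  have hqc : (q : ℂ) ≠ 0 := by exact_mod_cast (by omega : q ≠ 0)
  refine ⟨R.scaleRoots ((q : ℤ) ^ i), ⟨?_, ?_⟩, ?_⟩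
  · intro h0
    apply hR1.1
    have h1 := congrArg Polynomial.natDegree h0
    have h2 : (R.scaleRoots ((q : ℤ) ^ i)).coeff R.natDegree = 0 := by rw [h0, coeff_zero]
    rw [coeff_scaleRoots, Nat.sub_self, pow_zero, mul_one, coeff_natDegree,
      leadingCoeff_eq_zero] at h2
    exact h2
  · intro z hz
    have h1 : (aeval (z / (q : ℂ) ^ i)) R = 0 := by
      have h2 : ((q : ℂ) ^ i) ^ R.natDegree * (aeval (z / (q : ℂ) ^ i)) R = 0 := by
        rw [← hz, aeval_eq_sum_range, aeval_eq_sum_range, natDegree_scaleRoots, Finset.mul_sum]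
        apply Finset.sum_congr rfl
        intro l hl
        have hl' : l ≤ R.natDegree := by
          have := Finset.mem_range.mp hl
          omega
        have h3 : ((q : ℂ) ^ i) ^ R.natDegree
            = ((q : ℂ) ^ i) ^ (R.natDegree - l) * ((q : ℂ) ^ i) ^ l := by
          rw [← pow_add, Nat.sub_add_cancel hl']
        rw [h3, coeff_scaleRoots, zsmul_eq_mul, zsmul_eq_mul, div_pow]
        push_cast
        field_simp
      exact (mul_eq_zero.mp h2).resolve_left (pow_ne_zero _ (pow_ne_zero _ hqc))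
    have h2 := hR1.2 _ h1
    rw [norm_div, div_pow, norm_pow, Complex.norm_natCast] at h2
    rw [zpow_add₀ hq0, ← h2, div_mul_eq_mul_div, eq_div_iff (pow_ne_zero _ (pow_ne_zero _ hq0))]
    rw [mul_comm 2 (i : ℤ), zpow_mul, zpow_natCast]
    norm_cast
  · intro x hx
    obtain ⟨y, hy, rfl⟩ := hx
    have h1 : (aeval F' (R.scaleRoots ((q : ℤ) ^ i))) (f y)
        = (q : K) ^ (i * R.natDegree) • f ((aeval F R) y) := by
      rw [aeval_eq_sum_range, aeval_eq_sum_range, LinearMap.sum_apply, LinearMap.sum_apply,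
        natDegree_scaleRoots, map_sum, Finset.smul_sum]
      apply Finset.sum_congr rfl
      intro l hl
      have hl' : l ≤ R.natDegree := by
        have := Finset.mem_range.mp hl
        omega
      have h3 : (q : K) ^ (i * R.natDegree)
          = (q : K) ^ (i * (R.natDegree - l)) * (q : K) ^ (i * l) := by
        rw [← pow_add, ← Nat.mul_add, Nat.sub_add_cancel hl']
      rw [LinearMap.smul_apply, LinearMap.smul_apply, hpow, coeff_scaleRoots, map_zsmul, h3,
        ← Int.cast_smul_eq_zsmul K, ← Int.cast_smul_eq_zsmul K, smul_smul, smul_smul]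
      congr 1
      push_cast
      rw [← pow_mul]
      ring
    rw [h1, hR2 y hy, map_zero, smul_zero]

end

section
variable {K D : Type*} [Field K] [CharZero K] [AddCommGroup D] [Module K D]
  {q : ℕ} {F : Module.End K D}

/-- Vectors of different weights with sum zero are zero. -/
theorem pure_sum (hq : 1 < q) {m : ℤ} {W : ℤ → Submodule K D}
    (hW : ∀ r, PureOn q (m + r) F (W r)) (t : Finset ℤ) (x : ℤ → D) (hx : ∀ r ∈ t, x r ∈ W r)
    (h0 : ∑ r ∈ t, x r = 0) : ∀ r ∈ t, x r = 0 := by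
  classical
  choose R hR1 hR2 using hW
  intro r hr
  let P : ℤ → K[X] := fun i => (R i).map (algebraMap ℤ K)
  have hP : ∀ i, ∀ y ∈ W i, (aeval F (P i)) y = 0 := by
    intro i y hy
    have := hR2 i y hy
    rwa [aeval_map_algebraMap]
  have hcop : IsCoprime (∏ i ∈ t.erase r, P i) (P r) := by
    apply IsCoprime.prod_left
    intro i hi
    exact Weil.coprime K hq (by have := Finset.ne_of_mem_erase hi; omega) (hR1 i) (hR1 r)
  obtain ⟨a, b, hab⟩ := hcop
  have h1 : (aeval F (a * ∏ i ∈ t.erase r, P i)) (∑ i ∈ t, x i) = x r := by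
    rw [map_sum, Finset.sum_eq_single r]
    · have h2 : (aeval F (a * ∏ i ∈ t.erase r, P i + b * P r)) (x r) = x r := by
        rw [hab, map_one, Module.End.one_apply]
      rw [map_add, LinearMap.add_apply, map_mul (aeval F) b, Module.End.mul_apply,
        hP r _ (hx r hr), map_zero, add_zero] at h2
      exact h2
    · intro i hi hir
      obtain ⟨c, hc⟩ : P i ∣ a * ∏ i ∈ t.erase r, P i :=
        Dvd.dvd.mul_left (Finset.dvd_prod_of_mem _ (Finset.mem_erase.mpr ⟨hir, hi⟩)) _
      rw [hc, mul_comm, map_mul, Module.End.mul_apply, hP i _ (hx i hi), map_zero]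
    · intro h; exact absurd hr h
  rw [← h1, h0, map_zero]

/-- Subspaces of different weights are independent. -/
theorem pure_indep (hq : 1 < q) {m : ℤ} {W : ℤ → Submodule K D}
    (hW : ∀ r, PureOn q (m + r) F (W r)) : iSupIndep W := by
  rw [iSupIndep_iff_finsetSum_eq_zero_imp_eq_zero]
  exact fun t x hx h0 => pure_sum hq hW t x hx h0

/-- `F` is injective on a sum of pure subspaces. -/
theorem pure_injective (hq : 1 < q) {w : ℤ → ℤ} {W : ℤ → Submodule K D}
    (hW : ∀ r, PureOn q (w r) F (W r)) (htop : ⨆ r, W r = ⊤) : Function.Injective F := by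
  classical
  rw [injective_iff_map_eq_zero]
  intro x hx
  have h1 : x ∈ ⨆ r, W r := by rw [htop]; exact Submodule.mem_top
  have h2 : ∃ G : ℤ[X], G.coeff 0 ≠ 0 ∧ (aeval F G) x = 0 := by
    clear hx
    induction h1 using Submodule.iSup_induction' with
    | mem r x hx =>
      obtain ⟨R, hR1, hR2⟩ := hW r
      exact ⟨R, hR1.ne_zero hq, hR2 x hx⟩
    | zero => exact ⟨1, by simp, by simp⟩
    | add x y _ _ hx hy =>
      obtain ⟨G, hG1, hG2⟩ := hx
      obtain ⟨G', hG'1, hG'2⟩ := hy
      refine ⟨G * G', by rw [mul_coeff_zero]; exact mul_ne_zero hG1 hG'1, ?_⟩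
      have h3 : (aeval F (G * G')) x = 0 := by
        rw [mul_comm, map_mul, Module.End.mul_apply, hG2, map_zero]
      have h4 : (aeval F (G * G')) y = 0 := by
        rw [map_mul, Module.End.mul_apply, hG'2, map_zero]
      rw [map_add, h3, h4, add_zero]
  obtain ⟨G, hG1, hG2⟩ := h2
  rw [← divX_mul_X_add G, map_add, map_mul, LinearMap.add_apply, Module.End.mul_apply, aeval_X, hx,
    map_zero, zero_add, aeval_C] at hG2
  have h5 : ((G.coeff 0 : ℤ) : K) • x = 0 := by
    rw [Int.cast_smul_eq_zsmul]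
    simpa using hG2
  exact (smul_eq_zero.mp h5).resolve_left (by exact_mod_cast hG1)

end

end Pool.Agent.LibX1
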