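import Pool.Agent.LibX1.Hodge

/-!
The Hodge-Riemann relations in the rows `j ≤ r` and the injectivity of `N ^ s` for `s ≥ m - r`.
-/

namespace Pool.Agent.LibX1

open Module Finset

namespace Strata

variable {q : ℕ} {K H : Type} [Field K] [AddCommGroup H] [Module K H] (Y : Strata q K H)

variable {Y} {r : ℕ} {Λ : Module.End K H} {R : Type} [Ring R] [StarRing R] [Algebra ℚ R]
    {τ : R →ₗ[ℚ] ℚ} {π : R →+* Module.End K H} {e : ℕ → ℕ → R} {u v : R}

theorem HodgeRiemann.e_act_ne (h : Y.HodgeRiemann r Λ τ π e u v) {k j k' j' : ℕ} (hj : j' ≤ r)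
    (hne : (k, j) ≠ (k', j')) {x : H} (hx : x ∈ Y.gr k' j') : π (e k j) x = 0 := by
  rw [← h.e_act k' j' hj x hx, ← Module.End.mul_apply, ← map_mul, h.e_ne _ _ _ _ hne, map_zero,
    LinearMap.zero_apply]

/-- The sum of the entries of a sequence. -/
def bar (K : Type) {H : Type} [Field K] [AddCommGroup H] [Module K H] (n : ℕ) :
    (ℕ → H) →ₗ[K] H :=
  ∑ i ∈ range n, LinearMap.proj i

theorem bar_sg {n i : ℕ} (hi : i < n) (x : H) : bar K n (sg K i x) = x := by
  rw [bar, LinearMap.sum_apply, Finset.sum_eq_single i]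
  · exact sg_same (K := K) i x
  · intro l _ hl
    exact sg_ne (K := K) hl x
  · intro h
    exact absurd (mem_range.mpr hi) h

theorem S_sg (r : ℤ) (i : ℕ) (x : H) :
    Y.S Λ r (sg K i x) = ((i + 1 : ℕ) : K) • sg K (i + 1) (Y.rho' Λ x) -
      ((i : K) - (r : K)) • sg K i (Y.gamma' Λ x) := by
  funext l
  rw [S_apply, Pi.sub_apply, Pi.smul_apply, Pi.smul_apply]
  congr 1
  · by_cases hl : l = i + 1
    · subst hl
      rw [Nat.add_sub_cancel, sg_same, sg_same]
    · rw [sg_ne hl, smul_zero]
      rcases l with _ | l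
      · simp
      · rw [Nat.add_sub_cancel, sg_ne (by omega), map_zero, smul_zero]
  · by_cases hl : l = i
    · subst hl
      rw [sg_same, sg_same]
    · rw [sg_ne hl, sg_ne hl, map_zero, smul_zero, smul_zero]

/-- The weights of the cells. -/
def wα (s i : ℕ) : ℕ := (s + i).factorial / i.factorial

/-- The inverse weights of the cells, up to a common factor. -/
def wβ (s n i : ℕ) : ℕ := (s + n).factorial / (s - 1 + i).factorial * i.factorial

theorem wα_pos (s i : ℕ) : 0 < wα s i :=
  Nat.div_pos (Nat.factorial_le (by omega)) (Nat.factorial_pos _)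

theorem wβ_pos {s n i : ℕ} (h : s - 1 + i ≤ s + n) : 0 < wβ s n i :=
  Nat.mul_pos (Nat.div_pos (Nat.factorial_le h) (Nat.factorial_pos _)) (Nat.factorial_pos _)

theorem wα_mul (s i : ℕ) : wα s i * i.factorial = (s + i).factorial :=
  Nat.div_mul_cancel (Nat.factorial_dvd_factorial (by omega))

theorem wαβ {s n i : ℕ} (hs : 1 ≤ s) (h : i ≤ n) :
    wα s i * wβ s n i = (s + n).factorial * (s + i) := by
  have h1 := wα_mul s i
  have h2 : (s + n).factorial / (s - 1 + i).factorial * (s - 1 + i).factorial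
      = (s + n).factorial := Nat.div_mul_cancel (Nat.factorial_dvd_factorial (by omega))
  have h3 : (s + i).factorial = (s + i) * (s - 1 + i).factorial := by
    have : s + i = (s - 1 + i) + 1 := by omega
    rw [this, Nat.factorial_succ]
  have h4 : (s - 1 + i).factorial ≠ 0 := Nat.factorial_ne_zero _
  apply Nat.eq_of_mul_eq_mul_right (Nat.pos_of_ne_zero h4)
  calc wα s i * wβ s n i * (s - 1 + i).factorial
      = (wα s i * i.factorial) *
        ((s + n).factorial / (s - 1 + i).factorial * (s - 1 + i).factorial) := by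
        rw [wβ]; ring
    _ = (s + n).factorial * (s + i) * (s - 1 + i).factorial := by
        rw [h1, h2, h3]; ring

theorem wαβ' {s n i : ℕ} (hs : 1 ≤ s) (h : i ≤ n) :
    wα s i * wβ s n (i + 1) = (s + n).factorial * (i + 1) := by
  have h1 := wα_mul s i
  have h2 : (s + n).factorial / (s - 1 + (i + 1)).factorial * (s - 1 + (i + 1)).factorial
      = (s + n).factorial := Nat.div_mul_cancel (Nat.factorial_dvd_factorial (by omega))
  have h3 : s - 1 + (i + 1) = s + i := by omega
  rw [wβ]
  rw [h3] at h2 ⊢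
  have h4 : (s + i).factorial ≠ 0 := Nat.factorial_ne_zero _
  apply Nat.eq_of_mul_eq_mul_right (Nat.pos_of_ne_zero h4)
  calc wα s i * ((s + n).factorial / (s + i).factorial * (i + 1).factorial) * (s + i).factorial
      = (wα s i * i.factorial) * (i + 1) *
        ((s + n).factorial / (s + i).factorial * (s + i).factorial) := by
        rw [Nat.factorial_succ]; ring
    _ = (s + n).factorial * (i + 1) * (s + i).factorial := by
        rw [h1, h2]; ring

section glue

variable (h : Y.HodgeRiemann r Λ τ π e u v) {n s t : ℕ} (hs : 1 ≤ s) (ht : t + s = n + 1)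
  (htr : t ≤ r)

/-- The element of `R` which acts as `d` on the cochains of weight `m - s`. -/
def del (e : ℕ → ℕ → R) (u v : R) (s t : ℕ) : R :=
  ∑ i ∈ range (t / 2 + 1), e (s + 2 * i) (t - 2 * i) * u * e (s - 1 + 2 * i) (t - 2 * i) +
  ∑ i ∈ range (t / 2), e (s + 2 * i) (t - 2 * i) * v * e (s + 1 + 2 * i) (t - 2 * i - 2)

include h hs htr in
theorem del_act {i : ℕ} (hi : 2 * i ≤ t) {x : H} (hx : x ∈ Y.gr (s - 1 + 2 * i) (t - 2 * i)) :
    π (del e u v s t) x = Y.rho x + (if i = 0 then 0 else Y.gamma x) := by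
  rw [del, map_add, map_sum, map_sum, LinearMap.add_apply, LinearMap.sum_apply,
    LinearMap.sum_apply]
  congr 1
  · rw [Finset.sum_eq_single i]
    · rw [map_mul, map_mul, Module.End.mul_apply, Module.End.mul_apply,
        h.e_act _ _ (by omega) x hx, h.u_act _ _ (by omega) x hx]
      apply h.e_act _ _ (by omega)
      have := Y.rho_mem _ _ x hx
      rwa [show s - 1 + 2 * i + 1 = s + 2 * i by omega] at this
    · intro l _ hl
      rw [map_mul, Module.End.mul_apply, h.e_act_ne (by omega) (by simp; omega) hx, map_zero]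
    · intro hi'
      exact absurd (mem_range.mpr (by omega)) hi'
  · by_cases hi0 : i = 0
    · rw [if_pos hi0]
      apply Finset.sum_eq_zero
      intro l hl
      rw [map_mul, Module.End.mul_apply, h.e_act_ne (by omega) (by simp; omega) hx, map_zero]
    · rw [if_neg hi0]
      obtain ⟨i', rfl⟩ : ∃ i', i = i' + 1 := ⟨i - 1, by omega⟩
      have hx' : x ∈ Y.gr (s + 1 + 2 * i') (t - 2 * i' - 2) := by
        rwa [show s + 1 + 2 * i' = s - 1 + 2 * (i' + 1) by omega,
          show t - 2 * i' - 2 = t - 2 * (i' + 1) by omega]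
      rw [Finset.sum_eq_single i']
      · have hx2 : x ∈ Y.gr (s + 2 * i' + 1) (t - 2 * i' - 2) := by
          rwa [show s + 2 * i' + 1 = s + 1 + 2 * i' by omega]
        rw [map_mul, map_mul, Module.End.mul_apply, Module.End.mul_apply,
          h.e_act _ _ (by omega) x hx', h.v_act (s + 2 * i') _ (by omega) x hx2]
        apply h.e_act _ _ (by omega)
        have := Y.gamma_mem _ _ x hx2
        rwa [show t - 2 * i' - 2 + 2 = t - 2 * i' by omega] at this
      · intro l hl hl'
        rw [map_mul, Module.End.mul_apply, h.e_act_ne (by omega) (by simp; omega) hx, map_zero]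
      · intro hi'
        exact absurd (mem_range.mpr (by omega)) hi'

include h in
theorem star_del : star (del e u v s t) =
    ∑ i ∈ range (t / 2 + 1), e (s - 1 + 2 * i) (t - 2 * i) * star u * e (s + 2 * i) (t - 2 * i) +
    ∑ i ∈ range (t / 2), e (s + 1 + 2 * i) (t - 2 * i - 2) * star v *
      e (s + 2 * i) (t - 2 * i) := by
  rw [del, star_add, star_sum, star_sum]
  congr 1
  · apply Finset.sum_congr rfl
    intro i _
    rw [star_mul, star_mul, h.e_star, h.e_star, mul_assoc]
  · apply Finset.sum_congr rfl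
    intro i _
    rw [star_mul, star_mul, h.e_star, h.e_star, mul_assoc]

include h hs htr in
/-- The adjoint of `del`, with weights, acts as `S` up to a factor. -/
theorem adj_act {i : ℕ} (hi : 2 * i ≤ t) (htn : t ≤ n + 1) {x : H}
    (hx : x ∈ Y.gr (s + 2 * i) (t - 2 * i)) :
    π ((∑ i ∈ range (t / 2 + 1), wβ s n i • e (s - 1 + 2 * i) (t - 2 * i)) *
      star (del e u v s t) *
      (∑ i ∈ range (t / 2 + 1), wα s i • e (s + 2 * i) (t - 2 * i))) x
      = ((s + n).factorial : K) • (((i + 1 : ℕ) : K) • Y.rho' Λ x -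
        ((s + i : ℕ) : K) • Y.gamma' Λ x) := by
  have h0 : π (∑ i ∈ range (t / 2 + 1), wα s i • e (s + 2 * i) (t - 2 * i)) x
      = (wα s i : K) • x := by
    rw [map_sum, LinearMap.sum_apply, Finset.sum_eq_single i]
    · rw [map_nsmul, LinearMap.smul_apply, h.e_act _ _ (by omega) x hx, Nat.cast_smul_eq_nsmul]
    · intro l _ hl
      rw [map_nsmul, LinearMap.smul_apply, h.e_act_ne (by omega) (by simp; omega) hx, smul_zero]
    · intro hi'
      exact absurd (mem_range.mpr (by omega)) hi'
  have hgam : Y.gamma' Λ x ∈ Y.gr (s - 1 + 2 * i) (t - 2 * i) := by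
    have hx' : x ∈ Y.gr (s - 1 + 2 * i + 1) (t - 2 * i) := by
      rwa [show s - 1 + 2 * i + 1 = s + 2 * i by omega]
    rw [gamma'_apply]
    apply Submodule.sub_mem
    · rcases h.lowers _ _ _ (Y.gamma_mem _ _ x hx') with ⟨h2, h3⟩ | h2
      · rwa [Nat.add_sub_cancel] at h3
      · rw [h2]; exact Submodule.zero_mem _
    · rcases h.lowers _ _ _ hx' with ⟨h2, h3⟩ | h2
      · have h4 := Y.gamma_mem _ _ _ h3
        rwa [Nat.sub_add_cancel h2] at h4
      · rw [h2, map_zero]; exact Submodule.zero_mem _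
  have hrho : Y.rho' Λ x ∈ Y.gr (s + 1 + 2 * i) (t - 2 * i - 2) ∧
      (t - 2 * i < 2 → Y.rho' Λ x = 0) := by
    rw [rho'_apply]
    have h5 := Y.rho_mem _ _ x hx
    rw [show s + 2 * i + 1 = s + 1 + 2 * i by omega] at h5
    refine ⟨Submodule.sub_mem _ ?_ ?_, fun hlt => ?_⟩
    · rcases h.lowers _ _ _ h5 with ⟨h2, h3⟩ | h2
      · exact h3
      · rw [h2]; exact Submodule.zero_mem _
    · rcases h.lowers _ _ _ hx with ⟨h2, h3⟩ | h2
      · have h4 := Y.rho_mem _ _ _ h3
        rwa [show s + 2 * i + 1 = s + 1 + 2 * i by omega] at h4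
      · rw [h2, map_zero]; exact Submodule.zero_mem _
    · rcases h.lowers _ _ _ h5 with ⟨h2, h3⟩ | h2
      · omega
      · rcases h.lowers _ _ _ hx with ⟨h3, h4⟩ | h3
        · omega
        · rw [h2, h3, map_zero, sub_zero]
  have h1 : π (star (del e u v s t)) x = Y.rho' Λ x - Y.gamma' Λ x := by
    rw [star_del h, map_add, map_sum, map_sum, LinearMap.add_apply, LinearMap.sum_apply,
      LinearMap.sum_apply, add_comm, sub_eq_add_neg]
    congr 1
    · by_cases hlt : t - 2 * i < 2
      · rw [hrho.2 hlt]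
        apply Finset.sum_eq_zero
        intro l hl
        have := mem_range.mp hl
        rw [map_mul, Module.End.mul_apply, h.e_act_ne (by omega) (by simp; omega) hx, map_zero]
      · rw [Finset.sum_eq_single i]
        · have hx' : x ∈ Y.gr (s + 2 * i) (t - 2 * i - 2 + 2) := by
            rwa [Nat.sub_add_cancel (by omega)]
          rw [map_mul, map_mul, Module.End.mul_apply, Module.End.mul_apply,
            h.e_act _ _ (by omega) x hx, h.v_star _ _ (by omega) x hx', ← rho'_apply]
          exact h.e_act _ _ (by omega) _ hrho.1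
        · intro l _ hl
          rw [map_mul, Module.End.mul_apply, h.e_act_ne (by omega) (by simp; omega) hx, map_zero]
        · intro hi'
          exact absurd (mem_range.mpr (by omega)) hi'
    · rw [Finset.sum_eq_single i]
      · have hx' : x ∈ Y.gr (s - 1 + 2 * i + 1) (t - 2 * i) := by
          rwa [show s - 1 + 2 * i + 1 = s + 2 * i by omega]
        rw [map_mul, map_mul, Module.End.mul_apply, Module.End.mul_apply,
          h.e_act _ _ (by omega) x hx, h.u_star _ _ (by omega) x hx']
        have h6 : Y.gamma (Λ x) - Λ (Y.gamma x) = -Y.gamma' Λ x := by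
          rw [gamma'_apply]; abel
        rw [h6]
        exact h.e_act _ _ (by omega) _ (Submodule.neg_mem _ hgam)
      · intro l _ hl
        rw [map_mul, Module.End.mul_apply, h.e_act_ne (by omega) (by simp; omega) hx, map_zero]
      · intro hi'
        exact absurd (mem_range.mpr (by omega)) hi'
  have h2 : ∀ y ∈ Y.gr (s - 1 + 2 * i) (t - 2 * i),
      π (∑ i ∈ range (t / 2 + 1), wβ s n i • e (s - 1 + 2 * i) (t - 2 * i)) y
        = (wβ s n i : K) • y := by
    intro y hy
    rw [map_sum, LinearMap.sum_apply, Finset.sum_eq_single i]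
    · rw [map_nsmul, LinearMap.smul_apply, h.e_act _ _ (by omega) y hy, Nat.cast_smul_eq_nsmul]
    · intro l _ hl
      rw [map_nsmul, LinearMap.smul_apply, h.e_act_ne (by omega) (by simp; omega) hy, smul_zero]
    · intro hi'
      exact absurd (mem_range.mpr (by omega)) hi'
  have h3 : π (∑ i ∈ range (t / 2 + 1), wβ s n i • e (s - 1 + 2 * i) (t - 2 * i)) (Y.rho' Λ x)
        = (wβ s n (i + 1) : K) • Y.rho' Λ x := by
    by_cases hlt : t - 2 * i < 2
    · rw [hrho.2 hlt, map_zero, smul_zero]
    · have hy : Y.rho' Λ x ∈ Y.gr (s - 1 + 2 * (i + 1)) (t - 2 * (i + 1)) := by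
        rw [show s - 1 + 2 * (i + 1) = s + 1 + 2 * i by omega,
          show t - 2 * (i + 1) = t - 2 * i - 2 by omega]
        exact hrho.1
      rw [map_sum, LinearMap.sum_apply, Finset.sum_eq_single (i + 1)]
      · rw [map_nsmul, LinearMap.smul_apply, h.e_act _ _ (by omega) _ hy,
          Nat.cast_smul_eq_nsmul]
      · intro l _ hl
        rw [map_nsmul, LinearMap.smul_apply, h.e_act_ne (by omega) (by simp; omega) hy, smul_zero]
      · intro hi'
        exact absurd (mem_range.mpr (by omega)) hi'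
  rw [map_mul, map_mul, Module.End.mul_apply, Module.End.mul_apply, h0, map_smul, h1, map_smul,
    map_sub, h2 _ hgam, h3, smul_sub, smul_sub, smul_smul, smul_smul, smul_smul, smul_smul]
  congr 2
  · rw [← Nat.cast_mul, ← Nat.cast_mul, wαβ' hs (by omega)]
  · rw [← Nat.cast_mul, ← Nat.cast_mul, wαβ hs (by omega)]

include h in
theorem sum_mul_del :
    (∑ i ∈ range (t / 2 + 1), e (s + 2 * i) (t - 2 * i)) * del e u v s t = del e u v s t := by
  have h1 : ∀ l, 2 * l ≤ t → (∑ i ∈ range (t / 2 + 1), e (s + 2 * i) (t - 2 * i)) *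
      e (s + 2 * l) (t - 2 * l) = e (s + 2 * l) (t - 2 * l) := by
    intro l hl
    rw [Finset.sum_mul, Finset.sum_eq_single l]
    · exact h.e_mul _ _
    · intro i _ hi
      exact h.e_ne _ _ _ _ (by simp; omega)
    · intro hi'
      exact absurd (mem_range.mpr (by omega)) hi'
  rw [del, mul_add, Finset.mul_sum, Finset.mul_sum]
  congr 1
  · apply Finset.sum_congr rfl
    intro l hl
    have := mem_range.mp hl
    rw [← mul_assoc, ← mul_assoc, h1 l (by omega)]
  · apply Finset.sum_congr rfl
    intro l hl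
    have := mem_range.mp hl
    rw [← mul_assoc, ← mul_assoc, h1 l (by omega)]

include h hs in
theorem sum_mul_star_del :
    (∑ i ∈ range (t / 2 + 1), e (s - 1 + 2 * i) (t - 2 * i)) * star (del e u v s t)
      = star (del e u v s t) := by
  have h1 : ∀ l, 2 * l ≤ t → (∑ i ∈ range (t / 2 + 1), e (s - 1 + 2 * i) (t - 2 * i)) *
      e (s - 1 + 2 * l) (t - 2 * l) = e (s - 1 + 2 * l) (t - 2 * l) := by
    intro l hl
    rw [Finset.sum_mul, Finset.sum_eq_single l]
    · exact h.e_mul _ _
    · intro i _ hi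
      exact h.e_ne _ _ _ _ (by simp; omega)
    · intro hi'
      exact absurd (mem_range.mpr (by omega)) hi'
  rw [star_del h, mul_add, Finset.mul_sum, Finset.mul_sum]
  congr 1
  · apply Finset.sum_congr rfl
    intro l hl
    have := mem_range.mp hl
    rw [← mul_assoc, ← mul_assoc, h1 l (by omega)]
  · apply Finset.sum_congr rfl
    intro l hl
    have := mem_range.mp hl
    have h2 := h1 (l + 1) (by omega)
    rw [show s - 1 + 2 * (l + 1) = s + 1 + 2 * l by omega,
      show t - 2 * (l + 1) = t - 2 * l - 2 by omega] at h2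
    rw [← mul_assoc, ← mul_assoc, h2]

include h hs ht htr in
/-- **Positivity in the row `m - s`.** -/
theorem pos_of_hodgeRiemann [CharZero K] [Module.Finite ℚ R] (w : ℕ → H)
    (hw : w ∈ Y.wt n (-s + 1)) (h0 : Y.d (Y.S Λ (-s) (Y.d w)) = 0) : Y.d w = 0 := by
  -- `del` acts as `d`
  have hd : ∀ f ∈ Y.wt n (-s + 1), π (del e u v s t) (bar K (n + 2) f) = bar K (n + 2) (Y.d f) := by
    have h1 : Y.wt n (-s + 1) ≤ LinearMap.eqLocus (π (del e u v s t) ∘ₗ bar K (n + 2))
        (bar K (n + 2) ∘ₗ Y.d) := by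
      apply Y.wt_le
      rintro i k j h1 h2 h3 _ ⟨x, hx, rfl⟩
      rw [LinearMap.mem_eqLocus, LinearMap.comp_apply, LinearMap.comp_apply]
      show π (del e u v s t) (bar K (n + 2) (sg K i x)) = bar K (n + 2) (Y.d (sg K i x))
      obtain rfl : k = s - 1 + 2 * i := by omega
      obtain rfl : j = t - 2 * i := by omega
      rw [bar_sg (by omega), del_act h hs htr (by omega) hx]
      rcases i with _ | i
      · rw [if_pos rfl, d_sg_zero, bar_sg (by omega), add_zero]
      · rw [if_neg (Nat.succ_ne_zero i), d_sg_succ, map_add, bar_sg (by omega), bar_sg (by omega)]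
    exact fun f hf => h1 hf
  -- the weighted adjoint acts as `S`
  have hS : ∀ f ∈ Y.wt (n + 1) (-s),
      π ((∑ i ∈ range (t / 2 + 1), wβ s n i • e (s - 1 + 2 * i) (t - 2 * i)) *
        star (del e u v s t) *
        (∑ i ∈ range (t / 2 + 1), wα s i • e (s + 2 * i) (t - 2 * i))) (bar K (n + 2) f)
      = ((s + n).factorial : K) • bar K (n + 2) (Y.S Λ (-s) f) := by
    have h1 : Y.wt (n + 1) (-s) ≤ LinearMap.eqLocus
        (π ((∑ i ∈ range (t / 2 + 1), wβ s n i • e (s - 1 + 2 * i) (t - 2 * i)) *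
        star (del e u v s t) *
        (∑ i ∈ range (t / 2 + 1), wα s i • e (s + 2 * i) (t - 2 * i))) ∘ₗ bar K (n + 2))
        (((s + n).factorial : K) • (bar K (n + 2) ∘ₗ Y.S Λ (-s))) := by
      apply Y.wt_le
      rintro i k j h1 h2 h3 _ ⟨x, hx, rfl⟩
      rw [LinearMap.mem_eqLocus, LinearMap.comp_apply, LinearMap.smul_apply,
        LinearMap.comp_apply]
      show π _ (bar K (n + 2) (sg K i x)) = _ • bar K (n + 2) (Y.S Λ (-s) (sg K i x))
      obtain rfl : k = s + 2 * i := by omega
      obtain rfl : j = t - 2 * i := by omega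
      rw [bar_sg (by omega), adj_act h hs htr (by omega) (by omega) hx, S_sg, map_sub, map_smul,
        map_smul, bar_sg (by omega), bar_sg (by omega)]
      congr 3
      push_cast
      ring
    exact fun f hf => h1 hf
  obtain ⟨g, hg⟩ := core_pos h.pos (range (t / 2 + 1)) (wα s) (wβ s n)
    (fun i _ => wα_pos s i) (fun i hi => wβ_pos (by have := mem_range.mp hi; omega))
    (fun i => e (s + 2 * i) (t - 2 * i)) (fun i => e (s - 1 + 2 * i) (t - 2 * i))
    (fun i _ => h.e_star _ _) (fun i _ => h.e_mul _ _) (fun i _ => h.e_star _ _)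
    (fun i _ => h.e_mul _ _) (del e u v s t) (sum_mul_del h) (sum_mul_star_del h hs)
  have h1 : Y.d w ∈ Y.wt (n + 1) (-s) := by
    have := Y.d_wt n _ hw
    rwa [add_sub_cancel_right] at this
  have h2 : Y.S Λ (-s) (Y.d w) ∈ Y.wt n (-s + 1) := Y.S_wt h.lowers n (-s) h1
  have h3 : π (del e u v s t) (bar K (n + 2) w) = 0 := by
    rw [hg, map_mul, map_mul, map_mul, Module.End.mul_apply, Module.End.mul_apply,
      Module.End.mul_apply, hd w hw, hS _ h1, map_smul, hd _ h2, h0, map_zero, smul_zero, map_zero]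
  rw [hd w hw] at h3
  -- `bar` is injective
  have h4 : ∀ l, 2 * l ≤ t → ∀ f ∈ Y.wt (n + 1) (-s),
      π (e (s + 2 * l) (t - 2 * l)) (bar K (n + 2) f) = f l := by
    intro l hl
    have h5 : Y.wt (n + 1) (-s) ≤ LinearMap.eqLocus
        (π (e (s + 2 * l) (t - 2 * l)) ∘ₗ bar K (n + 2)) (LinearMap.proj l) := by
      apply Y.wt_le
      rintro i k j h1 h2 h3 _ ⟨x, hx, rfl⟩
      rw [LinearMap.mem_eqLocus, LinearMap.comp_apply]
      show π (e (s + 2 * l) (t - 2 * l)) (bar K (n + 2) (sg K i x)) = sg K i x l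
      obtain rfl : k = s + 2 * i := by omega
      obtain rfl : j = t - 2 * i := by omega
      rw [bar_sg (by omega)]
      by_cases hil : l = i
      · subst hil
        rw [sg_same, h.e_act _ _ (by omega) x hx]
      · rw [sg_ne hil, h.e_act_ne (by omega) (by simp; omega) hx]
    exact fun f hf => h5 hf
  funext l
  by_cases hl : 2 * l ≤ t
  · rw [← h4 l hl _ h1, h3, map_zero]
    rfl
  · rcases Y.wt_apply h1 l with h5 | ⟨k, j, h5, h6, h7, h8⟩
    · exact h5
    · omega

end glue

/-- If the Hodge-Riemann relations hold in the rows `j ≤ r`, then `N ^ s` is injective on the part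
of weight `m + s` for `s ≥ m - r`. -/
theorem Coh.inj_of_hodgeRiemann [CharZero K] [FiniteDimensional K H] [Module.Finite ℚ R]
    (h : Y.HodgeRiemann r Λ τ π e u v) (hq : 1 < q) {m : ℕ} {V : Type} [AddCommGroup V]
    [Module K V] {cl : (ℕ → H) →ₗ[K] V} {N F : Module.End K V} (hV : Y.Coh m cl N F)
    {s : ℕ} (hsr : m ≤ s + r) (x : V) (hx : x ∈ Y.W m cl s) (h0 : (N ^ s) x = 0) : x = 0 := by
  rcases Nat.eq_zero_or_pos s with rfl | hs
  · simpa using h0
  rcases Nat.lt_or_ge m s with hlt | hle
  · obtain ⟨z, ⟨hz, _⟩, rfl⟩ := hx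
    have h1 : Y.wt m s ≤ ⊥ := Y.wt_le fun i k j h1 h2 h3 => by omega
    have h2 : z = 0 := by simpa using h1 hz
    rw [h2, map_zero]
  · obtain ⟨n, rfl⟩ : ∃ n, m = n + 1 := ⟨m - 1, by omega⟩
    exact hV.inj_of_laplace hq h.lowers
      (pos_of_hodgeRiemann h hs (t := n + 1 - s) (by omega) (by omega)) x hx h0

end Strata

end Pool.Agent.LibX1
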