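import Pool.Agent.LibX1.Sys
import Pool.Agent.LibX1.Pure

/-!
The complex of a strictly semistable special fibre: elementary properties.
-/

namespace Pool.Agent.LibX1

namespace Strata

variable {q : ℕ} {K H : Type} [Field K] [AddCommGroup H] [Module K H] (Y : Strata q K H)

theorem d_apply (f : ℕ → H) (i : ℕ) : Y.d f i = Y.rho (f i) + Y.gamma (f (i + 1)) := rfl

theorem shift_apply (f : ℕ → H) (i : ℕ) : shift K H f i = f (i + 1) := rfl

theorem Fr_apply (f : ℕ → H) (i : ℕ) : Y.Fr f i = (q : K) ^ i • Y.frob (f i) := rfl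

theorem mem_tot {m : ℕ} {f : ℕ → H} : f ∈ Y.tot m ↔ ∀ i, f i ∈ Y.level m i := by
  rw [tot, Submodule.mem_pi]
  simp

theorem gr_le_level {m i k j : ℕ} (h : i ≤ k) (h' : k + j = m) : Y.gr k j ≤ Y.level m i :=
  le_iSup_of_le k (le_iSup_of_le j (le_iSup_of_le ⟨h, h'⟩ le_rfl))

theorem level_le {m i : ℕ} {S : Submodule K H} (h : ∀ k j, i ≤ k → k + j = m → Y.gr k j ≤ S) :
    Y.level m i ≤ S :=
  iSup_le fun k => iSup_le fun j => iSup_le fun hk => h k j hk.1 hk.2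

theorem level_anti {m i : ℕ} : Y.level m (i + 1) ≤ Y.level m i :=
  Y.level_le fun _ _ h h' => Y.gr_le_level (by omega) h'

theorem shift_tot {m : ℕ} {f : ℕ → H} (hf : f ∈ Y.tot m) : shift K H f ∈ Y.tot m := by
  rw [mem_tot] at hf ⊢
  exact fun i => Y.level_anti (hf (i + 1))

theorem Fr_tot {m : ℕ} {f : ℕ → H} (hf : f ∈ Y.tot m) : Y.Fr f ∈ Y.tot m := by
  rw [mem_tot] at hf ⊢
  intro i
  have h1 : Y.level m i ≤ (Y.level m i).comap Y.frob :=
    Y.level_le fun k j h h' x hx => Y.gr_le_level h h' (Y.frob_mem k j x hx)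
  exact Submodule.smul_mem _ _ (h1 (hf i))

theorem d_tot {m : ℕ} {f : ℕ → H} (hf : f ∈ Y.tot m) : Y.d f ∈ Y.tot (m + 1) := by
  rw [mem_tot] at hf ⊢
  intro i
  have h1 : Y.level m i ≤ (Y.level (m + 1) i).comap Y.rho :=
    Y.level_le fun k j h h' x hx =>
      Y.gr_le_level (k := k + 1) (j := j) (by omega) (by omega) (Y.rho_mem k j x hx)
  have h2 : Y.level m (i + 1) ≤ (Y.level (m + 1) i).comap Y.gamma := by
    apply Y.level_le
    intro k j h h' x hx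
    obtain ⟨k', rfl⟩ : ∃ k', k = k' + 1 := ⟨k - 1, by omega⟩
    exact Y.gr_le_level (k := k') (j := j + 2) (by omega) (by omega) (Y.gamma_mem k' j x hx)
  exact Submodule.add_mem _ (h1 (hf i)) (h2 (hf (i + 1)))

theorem d_shift (f : ℕ → H) : Y.d (shift K H f) = shift K H (Y.d f) := rfl

theorem d_Fr (f : ℕ → H) : Y.d (Y.Fr f) = Y.Fr (Y.d f) := by
  funext i
  rw [d_apply, Fr_apply, Fr_apply, Fr_apply, d_apply, map_smul, map_smul, map_add, Y.frob_rho,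
    Y.frob_gamma, smul_add, smul_smul, pow_succ]

theorem shift_Fr (f : ℕ → H) : shift K H (Y.Fr f) = (q : K) • Y.Fr (shift K H f) := by
  funext i
  rw [shift_apply, Fr_apply, Pi.smul_apply, Fr_apply, shift_apply, smul_smul, pow_succ']

/-- It is a complex. -/
theorem d_d {m : ℕ} {f : ℕ → H} (hf : f ∈ Y.tot m) : Y.d (Y.d f) = 0 := by
  rw [mem_tot] at hf
  funext i
  have h1 : ∀ x ∈ Y.level m (i + 1), Y.rho (Y.gamma x) + Y.gamma (Y.rho x) = 0 := by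
    have h2 : Y.level m (i + 1) ≤ LinearMap.ker (Y.rho ∘ₗ Y.gamma + Y.gamma ∘ₗ Y.rho) := by
      apply Y.level_le
      intro k j h h' x hx
      obtain ⟨k', rfl⟩ : ∃ k', k = k' + 1 := ⟨k - 1, by omega⟩
      exact Y.anti k' j x hx
    exact fun x hx => h2 hx
  have h3 := h1 _ (hf (i + 1))
  rw [d_apply, d_apply, d_apply, map_add, map_add, Y.rho_rho, Y.gamma_gamma, zero_add, add_zero, h3]
  rfl

theorem shift_Z {m : ℕ} {f : ℕ → H} (hf : f ∈ Y.Z m) : shift K H f ∈ Y.Z m := by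
  refine ⟨Y.shift_tot hf.1, ?_⟩
  have h1 : Y.d f = 0 := hf.2
  exact LinearMap.mem_ker.mpr (by rw [d_shift, h1, map_zero])

theorem Fr_Z {m : ℕ} {f : ℕ → H} (hf : f ∈ Y.Z m) : Y.Fr f ∈ Y.Z m := by
  refine ⟨Y.Fr_tot hf.1, ?_⟩
  have h1 : Y.d f = 0 := hf.2
  exact LinearMap.mem_ker.mpr (by rw [d_Fr, h1, map_zero])

theorem B_zero : Y.B 0 = ⊥ := by
  rw [B]
  simp

theorem B_succ (m : ℕ) : Y.B (m + 1) = (Y.tot m).map Y.d := by
  apply le_antisymm
  · refine iSup_le fun n => iSup_le fun hn => ?_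
    obtain rfl : n = m := by omega
    exact le_rfl
  · exact le_iSup_of_le m (le_iSup_of_le rfl le_rfl)

theorem B_le (m : ℕ) {S : Submodule K (ℕ → H)}
    (h : ∀ n, n + 1 = m → ∀ g ∈ Y.tot n, Y.d g ∈ S) : Y.B m ≤ S := by
  refine iSup_le fun n => iSup_le fun hn => ?_
  rintro _ ⟨g, hg, rfl⟩
  exact h n hn g hg

theorem B_le_Z (m : ℕ) : Y.B m ≤ Y.Z m := by
  apply Y.B_le
  rintro n rfl g hg
  exact ⟨Y.d_tot hg, LinearMap.mem_ker.mpr (Y.d_d hg)⟩

theorem shift_B {m : ℕ} : Y.B m ≤ (Y.B m).comap (shift K H) := by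
  apply Y.B_le
  rintro n rfl g hg
  rw [B_succ]
  exact ⟨shift K H g, Y.shift_tot hg, Y.d_shift g⟩

theorem Fr_B {m : ℕ} : Y.B m ≤ (Y.B m).comap Y.Fr := by
  apply Y.B_le
  rintro n rfl g hg
  rw [B_succ]
  exact ⟨Y.Fr g, Y.Fr_tot hg, Y.d_Fr g⟩

variable {Y} in
theorem Coh.N_F {m : ℕ} {V : Type} [AddCommGroup V] [Module K V] {cl : (ℕ → H) →ₗ[K] V}
    {N F : Module.End K V} (h : Y.Coh m cl N F) (x : V) : N (F x) = (q : K) • F (N x) := by
  obtain ⟨z, hz, rfl⟩ := h.surj x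
  rw [h.F_cl z hz, h.N_cl z hz, h.N_cl _ (Y.Fr_Z hz), h.F_cl _ (Y.shift_Z hz), shift_Fr, map_smul]

end Strata

end Pool.Agent.LibX1
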