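import Pool.Agent.LibX1.Defs
import Pool.Agent.LibWM85.Mono

/-!
The string lemma: if `N ^ s` is bijective from weight `m + s` to weight `m - s` for all `s ≥ s₀`,
then the graded pieces `gr_s` of the monodromy filtration are pure of weight `m + s` for
`|s| ≥ s₀ - 1`.
-/

namespace Pool.Agent.LibX1

open Polynomial Pool.Agent.WM85

variable {K D : Type*} [Field K] [AddCommGroup D] [Module K D]

/-- A family of projections onto the members of the grading `W`. -/
structure Proj {ι : Type*} (W : ι → Submodule K D) (p : ι → D →ₗ[K] D) : Prop where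
  mem : ∀ r x, p r x ∈ W r
  self : ∀ r, ∀ x ∈ W r, p r x = x
  ne : ∀ r t, r ≠ t → ∀ x ∈ W t, p r x = 0
  sum : ∀ x, ∃ s : Finset ι, x = ∑ r ∈ s, p r x

theorem Proj.comm {W : ℤ → Submodule K D} {p : ℤ → D →ₗ[K] D} (hp : Proj W p)
    {N : Module.End K D} (hN : ∀ r, ∀ x ∈ W r, N x ∈ W (r - 2)) (r : ℤ) (x : D) :
    p (r - 2) (N x) = N (p r x) := by
  obtain ⟨s, hs⟩ := hp.sum x
  by_cases hr : r ∈ s
  · have h1 : N x = ∑ t ∈ s, N (p t x) := by
      conv_lhs => rw [hs]
      rw [map_sum]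
    rw [h1, map_sum, Finset.sum_eq_single r]
    · exact hp.self _ _ (hN r _ (hp.mem r x))
    · intro t _ ht
      exact hp.ne _ _ (by omega) _ (hN t _ (hp.mem t x))
    · intro h; exact absurd hr h
  · have h1 : N x = ∑ t ∈ s, N (p t x) := by
      conv_lhs => rw [hs]
      rw [map_sum]
    have h2 : p r x = 0 := by
      conv_lhs => rw [hs]
      rw [map_sum]
      apply Finset.sum_eq_zero
      intro t ht
      exact hp.ne _ _ (by rintro rfl; exact hr ht) _ (hp.mem t x)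
    rw [h2, map_zero, h1, map_sum]
    apply Finset.sum_eq_zero
    intro t ht
    exact hp.ne _ _ (by intro h; exact hr (by rwa [show r = t by omega])) _ (hN t _ (hp.mem t x))

theorem Proj.comm_pow {W : ℤ → Submodule K D} {p : ℤ → D →ₗ[K] D} (hp : Proj W p)
    {N : Module.End K D} (hN : ∀ r, ∀ x ∈ W r, N x ∈ W (r - 2)) (j : ℕ) (r : ℤ) (x : D) :
    p (r - 2 * j) ((N ^ j) x) = (N ^ j) (p r x) := by
  induction j with
  | zero => simp
  | succ j ih =>
    rw [pow_succ', Module.End.mul_apply, Module.End.mul_apply, ← ih, ← hp.comm hN]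
    congr 2
    push_cast
    ring

theorem pow_mem_grade {W : ℤ → Submodule K D}
    {N : Module.End K D} (hN : ∀ r, ∀ x ∈ W r, N x ∈ W (r - 2)) (j : ℕ) (r : ℤ) (x : D)
    (hx : x ∈ W r) : (N ^ j) x ∈ W (r - 2 * j) := by
  induction j with
  | zero => simpa using hx
  | succ j ih =>
    rw [pow_succ', Module.End.mul_apply]
    have := hN _ _ ih
    rwa [show r - 2 * ((j + 1 : ℕ) : ℤ) = r - 2 * j - 2 by push_cast; ring]

/-- The graded string lemma. -/
theorem strings_graded {N : Module.End K D} {M W : ℤ → Submodule K D} {p : ℤ → D →ₗ[K] D}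
    (hM : IsMono N M) (hN : ∀ r, ∀ x ∈ W r, N x ∈ W (r - 2)) (hp : Proj W p)
    (hMp : ∀ s r, ∀ x ∈ M s, p r x ∈ M s) (s₀ : ℕ)
    (hinj : ∀ s : ℕ, s₀ ≤ s → ∀ x ∈ W s, (N ^ s) x = 0 → x = 0)
    (hsurj : ∀ s : ℕ, s₀ ≤ s → ∀ y ∈ W (-s), ∃ x ∈ W s, (N ^ s) x = y)
    (s r : ℤ) (hs : (s₀ : ℤ) ≤ |r - s| + |s|) (hrs : r ≠ s) : M s ⊓ W r ≤ M (s - 1) := by
  -- the statement for `-s` follows from the one for `s`
  have neg : ∀ s : ℕ, (∀ r : ℤ, r ≠ s → (s₀ : ℤ) ≤ |r - s| + s → M s ⊓ W r ≤ M (s - 1)) →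
      ∀ r : ℤ, r ≠ -s → (s₀ : ℤ) ≤ |r + s| + s → M (-s) ⊓ W r ≤ M (-s - 1) := by
    intro s h r hr hrs x hx
    obtain ⟨hx1, hx2⟩ := hx
    obtain ⟨z, hz, rfl⟩ := hM.surj' s x hx1
    have h1 : (N ^ s) (p (r + 2 * s) z) = (N ^ s) z := by
      rw [← hp.comm_pow hN, show r + 2 * (s : ℤ) - 2 * s = r by ring]
      exact hp.self _ _ hx2
    rw [← h1]
    have h2 : p (r + 2 * s) z ∈ M (s - 1) := h (r + 2 * s) (by omega)
      (by rwa [show r + 2 * (s : ℤ) - s = r + s by ring]) ⟨hMp _ _ _ hz, hp.mem _ _⟩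
    have h3 := hM.shift_pow s _ _ h2
    rwa [show (s : ℤ) - 1 - 2 * s = -s - 1 by ring] at h3
  -- the statement for `s ≥ 0`, by downward induction
  obtain ⟨b, hb⟩ := hM.bot
  have key : ∀ d : ℕ, ∀ s : ℕ, (-b).toNat ≤ s + d → ∀ r : ℤ, r ≠ s →
      (s₀ : ℤ) ≤ |r - s| + s → M s ⊓ W r ≤ M (s - 1) := by
    intro d
    induction d using Nat.strong_induction_on with
    | _ d ih =>
      intro s hd r hr hs x hx
      obtain ⟨hx1, hx2⟩ := hx
      -- `N ^ (s + 1) x` lies in `M (- s - 3)`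
      have h1 : (N ^ (s + 1)) x ∈ M (-s - 3) := by
        have h2 := hM.shift_pow (s + 1) _ _ hx1
        have h3 := pow_mem_grade hN (s + 1) _ _ hx2
        rw [show (s : ℤ) - 2 * ((s + 1 : ℕ) : ℤ) = -((s + 2 : ℕ) : ℤ) by push_cast; ring] at h2
        rw [show (-s - 3 : ℤ) = -((s + 2 : ℕ) : ℤ) - 1 by push_cast; ring]
        rcases Nat.lt_or_ge d 2 with hd2 | hd2
        · have h4 : M (-((s + 2 : ℕ) : ℤ)) ≤ ⊥ := by
            rw [← hb]
            apply hM.monotone
            push_cast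
            omega
          have h5 : (N ^ (s + 1)) x = 0 := by simpa using h4 h2
          rw [h5]
          exact Submodule.zero_mem _
        · refine neg (s + 2) (fun r hr hrs => ih (d - 2) (by omega) (s + 2) (by omega) r hr hrs)
            (r - 2 * ((s + 1 : ℕ) : ℤ)) ?_ ?_ ⟨h2, h3⟩
          · push_cast
            intro h
            exact hr (by linarith)
          · rw [show r - 2 * ((s + 1 : ℕ) : ℤ) + ((s + 2 : ℕ) : ℤ) = r - s by push_cast; ring]
            push_cast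
            omega
      -- hence `N ^ (s + 1) x = N ^ (s + 1) x'` with `x'` in `M (s - 1)` and `W r`
      obtain ⟨x', hx'1, hx'2, hx'3⟩ : ∃ x' ∈ M (s - 1 : ℤ), x' ∈ W r ∧
          (N ^ (s + 1)) x' = (N ^ (s + 1)) x := by
        have h2 : (N ^ (s + 1)) x ∈ M (-((s + 3 : ℕ) : ℤ)) := by
          rwa [show -((s + 3 : ℕ) : ℤ) = (-s - 3 : ℤ) by push_cast; ring]
        obtain ⟨z, hz, hz2⟩ := hM.surj' (s + 3) _ h2
        have h3 := hM.shift_pow 2 _ _ hz
        rw [show ((s + 3 : ℕ) : ℤ) - 2 * ((2 : ℕ) : ℤ) = (s : ℤ) - 1 by push_cast; ring] at h3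
        have h4 : (N ^ (s + 1)) ((N ^ 2) z) = (N ^ (s + 1)) x := by
          rw [← hz2, ← Module.End.mul_apply, ← pow_add]
        refine ⟨p r ((N ^ 2) z), hMp _ _ _ h3, hp.mem _ _, ?_⟩
        rw [← hp.comm_pow hN, h4]
        exact hp.self _ _ (pow_mem_grade hN (s + 1) _ _ hx2)
      have h6 : (N ^ (s + 1)) (x - x') = 0 := by rw [map_sub, hx'3, sub_self]
      have h7 : x - x' ∈ W r := Submodule.sub_mem _ hx2 hx'2
      have h8 : x - x' ∈ M s := Submodule.sub_mem _ hx1 (hM.mono s hx'1)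
      suffices h9 : x - x' ∈ M (s - 1 : ℤ) by
        have := Submodule.add_mem _ h9 hx'1
        simpa using this
      generalize x - x' = y at h6 h7 h8
      rcases lt_or_gt_of_ne hr with hlt | hgt
      · -- `r < s`
        obtain ⟨t, ht⟩ : ∃ t : ℕ, (t : ℤ) = 2 * s - r := ⟨(2 * (s : ℤ) - r).toNat, by omega⟩
        have h9 := pow_mem_grade hN s _ _ h7
        rw [show r - 2 * (s : ℤ) = -(t : ℤ) by omega] at h9
        rw [abs_of_neg (by omega)] at hs
        obtain ⟨z, hz, hz2⟩ := hsurj t (by omega) _ h9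
        have h10 : (N ^ (t + 1)) z = 0 := by
          rw [pow_succ', Module.End.mul_apply, hz2, ← Module.End.mul_apply, ← pow_succ', h6]
        have h11 := hM.ker_le t z h10
        have h12 := hM.shift_pow t _ _ h11
        rw [hz2] at h12
        exact hM.inj s y h8 (hM.monotone (by omega) h12)
      · -- `r > s`
        obtain ⟨t, ht⟩ : ∃ t : ℕ, (t : ℤ) = r := ⟨r.toNat, by omega⟩
        have h9 : (N ^ t) y = 0 := by
          rw [show t = (t - (s + 1)) + (s + 1) by omega, pow_add, Module.End.mul_apply, h6, map_zero]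
        rw [abs_of_pos (by omega)] at hs
        have h10 := hinj t (by omega) y (by rwa [ht]) h9
        rw [h10]
        exact Submodule.zero_mem _
  rcases le_or_gt 0 s with h0 | h0
  · obtain ⟨t, rfl⟩ := Int.eq_ofNat_of_zero_le h0
    rw [abs_of_nonneg h0] at hs
    exact key ((-b).toNat) t (by omega) r hrs hs
  · obtain ⟨t, ht⟩ : ∃ t : ℕ, s = -(t : ℤ) := ⟨(-s).toNat, by omega⟩
    subst ht
    rw [abs_neg, Nat.abs_cast, sub_neg_eq_add] at hs
    exact neg t (key ((-b).toNat) t (by omega)) r hrs hs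

end Pool.Agent.LibX1
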