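import Pool.Agent.LibX1.Defs

/-!
The weight spectral sequence of a strictly semistable special fibre, as an explicit complex.
-/

namespace Pool.Agent.LibX1

/-- The cohomology of the strata of a strictly semistable special fibre `Y` over the field with `q`
elements: `gr k j` is `H^j (Y^(k+1))`, where `Y^(k+1)` is the disjoint union of the intersections of
`k + 1` components, `rho` is the alternating sum of the restrictions, `gamma` the alternating sum
of the Gysin maps, `frob` the Frobenius. -/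
structure Strata (q : ℕ) (K H : Type) [Field K] [AddCommGroup H] [Module K H] where
  gr : ℕ → ℕ → Submodule K H
  rho : Module.End K H
  gamma : Module.End K H
  frob : Module.End K H
  internal : DirectSum.IsInternal fun p : ℕ × ℕ => gr p.1 p.2
  rho_mem : ∀ k j, ∀ x ∈ gr k j, rho x ∈ gr (k + 1) j
  gamma_mem : ∀ k j, ∀ x ∈ gr (k + 1) j, gamma x ∈ gr k (j + 2)
  frob_mem : ∀ k j, ∀ x ∈ gr k j, frob x ∈ gr k j
  rho_rho : ∀ x, rho (rho x) = 0
  gamma_gamma : ∀ x, gamma (gamma x) = 0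
  anti : ∀ k j, ∀ x ∈ gr (k + 1) j, rho (gamma x) + gamma (rho x) = 0
  frob_rho : ∀ x, frob (rho x) = rho (frob x)
  frob_gamma : ∀ x, frob (gamma x) = (q : K) • gamma (frob x)
  pure : ∀ k j : ℕ, PureOn q j frob (gr k j)

namespace Strata

variable {q : ℕ} {K H : Type} [Field K] [AddCommGroup H] [Module K H] (Y : Strata q K H)

/-- The sum of the spaces `H^(m-k) (Y^(k+1))` with `k ≥ i`. -/
def level (m i : ℕ) : Submodule K H :=
  ⨆ k, ⨆ j, ⨆ (_ : i ≤ k ∧ k + j = m), Y.gr k j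

/-- The term of degree `m` of the complex: the sequences `f` with `f i` in the sum of the spaces
`H^(m-k) (Y^(k+1))`, `k ≥ i`. -/
def tot (m : ℕ) : Submodule K (ℕ → H) :=
  Submodule.pi Set.univ fun i => Y.level m i

/-- The differential `(d f) i = rho (f i) + gamma (f (i + 1))`. -/
def d : Module.End K (ℕ → H) :=
  LinearMap.pi fun i => Y.rho ∘ₗ LinearMap.proj i + Y.gamma ∘ₗ LinearMap.proj (i + 1)

/-- The monodromy `(N f) i = f (i + 1)`. -/
def shift (K H : Type) [Field K] [AddCommGroup H] [Module K H] : Module.End K (ℕ → H) :=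
  LinearMap.pi fun i => LinearMap.proj (i + 1)

/-- The Frobenius `(F f) i = q ^ i F (f i)`. -/
def Fr : Module.End K (ℕ → H) :=
  LinearMap.pi fun i => ((q : K) ^ i) • (Y.frob ∘ₗ LinearMap.proj i)

/-- The cocycles of degree `m`. -/
def Z (m : ℕ) : Submodule K (ℕ → H) := Y.tot m ⊓ LinearMap.ker Y.d

/-- The coboundaries of degree `m`. -/
def B (m : ℕ) : Submodule K (ℕ → H) := ⨆ n, ⨆ (_ : n + 1 = m), (Y.tot n).map Y.d

/-- `V` with `N` and `F` is the cohomology of degree `m` with its monodromy and Frobenius: `cl` maps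
the cocycles onto `V`, its kernel on the cocycles is the space of coboundaries, `N` and `F` are
induced by the operators of the complex. -/
structure Coh (m : ℕ) {V : Type} [AddCommGroup V] [Module K V] (cl : (ℕ → H) →ₗ[K] V)
    (N F : Module.End K V) : Prop where
  surj : ∀ v, ∃ z ∈ Y.Z m, cl z = v
  ker : ∀ z ∈ Y.Z m, cl z = 0 ↔ z ∈ Y.B m
  N_cl : ∀ z ∈ Y.Z m, N (cl z) = cl (shift K H z)
  F_cl : ∀ z ∈ Y.Z m, F (cl z) = cl (Y.Fr z)

/-- The Hodge-Riemann relations in the rows `j ≤ r`: `R` is a rational algebra acting on `H`, with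
involution `star` and linear form `τ` with `τ (star b * b) > 0` for `b ≠ 0`, which contains
orthogonal self-adjoint idempotents `e k j` projecting to `gr k j`, and elements `u`, `v` which act
as `rho`, `gamma` and whose adjoints act as `[gamma, Λ]`, `[Λ, rho]` in the rows `j ≤ r`; here `Λ`
is an operator on `H` lowering degrees by `2`. -/
structure HodgeRiemann (r : ℕ) (Λ : Module.End K H) {R : Type} [Ring R] [StarRing R] [Algebra ℚ R]
    (τ : R →ₗ[ℚ] ℚ) (π : R →+* Module.End K H) (e : ℕ → ℕ → R) (u v : R) : Prop where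
  lowers : ∀ k j, ∀ x ∈ Y.gr k j, (2 ≤ j ∧ Λ x ∈ Y.gr k (j - 2)) ∨ Λ x = 0
  pos : ∀ b : R, b ≠ 0 → 0 < τ (star b * b)
  e_star : ∀ k j, star (e k j) = e k j
  e_mul : ∀ k j, e k j * e k j = e k j
  e_ne : ∀ k j k' j', (k, j) ≠ (k', j') → e k j * e k' j' = 0
  e_act : ∀ k, ∀ j ≤ r, ∀ x ∈ Y.gr k j, π (e k j) x = x
  u_act : ∀ k, ∀ j ≤ r, ∀ x ∈ Y.gr k j, π u x = Y.rho x
  u_star : ∀ k, ∀ j ≤ r, ∀ x ∈ Y.gr (k + 1) j, π (star u) x = Y.gamma (Λ x) - Λ (Y.gamma x)
  v_act : ∀ k j, j + 2 ≤ r → ∀ x ∈ Y.gr (k + 1) j, π v x = Y.gamma x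
  v_star : ∀ k j, j + 2 ≤ r → ∀ x ∈ Y.gr k (j + 2), π (star v) x = Λ (Y.rho x) - Y.rho (Λ x)

end Strata

end Pool.Agent.LibX1
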